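import Mathlib.Tactic.ToAdditive
import Mathlib.Util.Notation3
import Mathlib.Data.Set.Operations
import Mathlib.Tactic.Common

set_option autoImplicit false

namespace Pool.Agent.MP_8c2300_lc.h28

/-- first-order formulas in the `k` variables `x_0, …, x_(k-1)` (which may be quantified again and
again), with equality and relation symbols of all arities: the symbol with name `r` and arity `a` is
applied to a list of `a` variables -/
inductive Fm (k : ℕ) : Type
  | rel (r : ℕ) (args : List (Fin k)) : Fm k
  | eq (i j : Fin k) : Fm k
  | not (φ : Fm k) : Fm k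
  | and (φ ψ : Fm k) : Fm k
  | ex (i : Fin k) (φ : Fm k) : Fm k

/-- Tarski semantics in the structure with universe `A` and relations `I`, under the assignment `v` -/
def Sat {k : ℕ} {A : Type} (I : ℕ → List A → Prop) : Fm k → (Fin k → A) → Prop
  | .rel r l, v => I r (l.map v)
  | .eq i j, v => v i = v j
  | .not φ, v => ¬Sat I φ v
  | .and φ ψ, v => Sat I φ v ∧ Sat I ψ v
  | .ex i φ, v => ∃ a, Sat I φ (Function.update v i a)

/-- the spectrum: the sizes of the finite models of the universal closure of `φ` -/
def spectrum {k : ℕ} (φ : Fm k) : Set ℕ :=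
  {n | 0 < n ∧ ∃ I : ℕ → List (Fin n) → Prop, ∀ v, Sat I φ v}

/-- the class of spectra of sentences with `k` variables -/
def Spec (k : ℕ) : Set (Set ℕ) := Set.range (spectrum : Fm k → Set ℕ)

end Pool.Agent.MP_8c2300_lc.h28
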