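import Mathlib.Tactic.NormNum.Ineq
import Mathlib.Data.ZMod.Defs
import Mathlib.Algebra.Order.Ring.Star
import Mathlib.Order.CompletePartialOrder
import Pool.Agent.MP_8c2300_lc.h28.Defs

/-! Isomorphism invariance, the inclusions, and the cases of at most one variable. -/

set_option autoImplicit false

namespace Pool.Agent.MP_8c2300_lc.h28

open Function

variable {k : ℕ}

/-- pull back of a structure along a surjection that respects the equalities that matter -/
theorem sat_pull {A B : Type} (h : B → A) (hs : Surjective h)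
    (hi : ∀ (v : Fin k → B) (i j : Fin k), h (v i) = h (v j) → v i = v j)
    (I : ℕ → List A → Prop) (φ : Fm k) :
    ∀ v : Fin k → B, Sat (fun r l => I r (l.map h)) φ v ↔ Sat I φ (h ∘ v) := by
  induction φ with
  | rel r l => intro v; simp [Sat]
  | eq i j => intro v; exact ⟨fun e => congrArg h e, hi v i j⟩
  | not φ ih => intro v; simp only [Sat, ih]
  | and φ ψ ih1 ih2 => intro v; simp only [Sat, ih1, ih2]
  | ex i φ ih =>
    intro v
    simp only [Sat, ih, comp_update]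
    constructor
    · rintro ⟨a, ha⟩; exact ⟨h a, ha⟩
    · rintro ⟨a, ha⟩; obtain ⟨b, rfl⟩ := hs a; exact ⟨b, ha⟩

theorem model_equiv {A B : Type} (e : B ≃ A) (φ : Fm k)
    (h : ∃ I : ℕ → List A → Prop, ∀ v, Sat I φ v) : ∃ I : ℕ → List B → Prop, ∀ v, Sat I φ v := by
  obtain ⟨I, hI⟩ := h
  exact ⟨_, fun v => (sat_pull e e.surjective (fun _ _ _ h => e.injective h) I φ v).2 (hI _)⟩

theorem mem_spectrum_iff {A : Type} [Fintype A] [Nonempty A] (φ : Fm k) :
    Fintype.card A ∈ spectrum φ ↔ ∃ I : ℕ → List A → Prop, ∀ v, Sat I φ v :=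
  ⟨fun h => model_equiv (Fintype.equivFin A) φ h.2,
    fun h => ⟨Fintype.card_pos, model_equiv (Fintype.equivFin A).symm φ h⟩⟩

/-- a formula with `k` variables read as a formula with `k + 1` variables -/
def Fm.up : Fm k → Fm (k + 1)
  | .rel r l => .rel r (l.map Fin.castSucc)
  | .eq i j => .eq i.castSucc j.castSucc
  | .not φ => .not φ.up
  | .and φ ψ => .and φ.up ψ.up
  | .ex i φ => .ex i.castSucc φ.up

theorem sat_up {A : Type} (I : ℕ → List A → Prop) (φ : Fm k) :
    ∀ v : Fin (k + 1) → A, Sat I φ.up v ↔ Sat I φ (v ∘ Fin.castSucc) := by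
  induction φ with
  | rel r l => intro v; simp [Sat, Fm.up]
  | eq i j => intro v; rfl
  | not φ ih => intro v; simp only [Sat, Fm.up, ih]
  | and φ ψ ih1 ih2 => intro v; simp only [Sat, Fm.up, ih1, ih2]
  | ex i φ ih =>
    intro v
    simp only [Sat, Fm.up, ih, update_comp_eq_of_injective v (Fin.castSucc_injective k)]

theorem spec_mono (k : ℕ) : Spec k ⊆ Spec (k + 1) := by
  rintro _ ⟨φ, rfl⟩
  refine ⟨φ.up, Set.ext fun n => and_congr_right fun hn => exists_congr fun I => ?_⟩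
  simp only [sat_up]
  refine ⟨fun h v => ?_, fun h v => h _⟩
  have := h (Fin.snoc (α := fun _ => Fin n) v ⟨0, hn⟩)
  rwa [show (Fin.snoc (α := fun _ => Fin n) v ⟨0, hn⟩) ∘ Fin.castSucc = v from
    funext fun i => by simp] at this

theorem spec_zero : Spec 0 ⊂ Spec 1 := by
  refine ⟨spec_mono 0, fun h => ?_⟩
  obtain ⟨φ, hφ⟩ := h ⟨.and (.ex 0 (.rel 0 [0])) (.ex 0 (.not (.rel 0 [0]))), rfl⟩
  have h2 : 2 ∈ spectrum φ := by
    rw [hφ]
    refine ⟨by norm_num, fun _ l => l = [0], fun v => ⟨⟨0, ?_⟩, ⟨1, ?_⟩⟩⟩ <;> simp [Sat]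
  have h1 : 1 ∈ spectrum φ := by
    obtain ⟨_, I, hI⟩ := h2
    refine ⟨one_pos, fun r l => I r (l.map fun _ => 0), fun v => ?_⟩
    have key : ∀ ψ : Fm 0, Sat (fun r (l : List (Fin 1)) => I r (l.map fun _ => 0)) ψ v ↔
        Sat I ψ (fun _ => 0) := by
      intro ψ
      induction ψ with
      | rel r l =>
        cases l with
        | nil => simp [Sat]
        | cons i l => exact i.elim0
      | eq i j => exact i.elim0
      | not φ ih => simp only [Sat, ih]
      | and φ ψ ih1 ih2 => simp only [Sat, ih1, ih2]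
      | ex i φ ih => exact i.elim0
    exact (key φ).2 (hI _)
  rw [hφ] at h1
  obtain ⟨_, I, hI⟩ := h1
  obtain ⟨⟨a, ha⟩, ⟨b, hb⟩⟩ := hI fun _ => 0
  rw [Subsingleton.elim b a] at hb
  exact hb ha

theorem spec_one : Spec 1 ⊂ Spec 2 := by
  refine ⟨spec_mono 1, fun h => ?_⟩
  obtain ⟨φ, hφ⟩ := h ⟨.eq 0 1, rfl⟩
  have h1 : 1 ∈ spectrum φ := by
    rw [hφ]
    exact ⟨one_pos, fun _ _ => True, fun v => Subsingleton.elim _ _⟩
  have h2 : 2 ∈ spectrum φ := by
    obtain ⟨_, I, hI⟩ := h1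
    exact ⟨two_pos, _, fun v => (sat_pull (fun _ : Fin 2 => (0 : Fin 1))
      (fun a => ⟨0, Subsingleton.elim _ _⟩) (fun v i j _ => by rw [Subsingleton.elim i j]) I φ v).2
      (hI _)⟩
  rw [hφ] at h2
  obtain ⟨_, I, hI⟩ := h2
  have := hI id
  simp [Sat] at this

end Pool.Agent.MP_8c2300_lc.h28
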