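import Mathlib.Data.Finite.Prod
import Mathlib.Data.Set.Finite.Powerset
import Mathlib.Data.Fintype.Option
import Mathlib.Data.Finset.Sort
import Pool.Agent.MP_8c2300_lc.h28.Basic

/-! A sentence with `m + 1` variables is equivalent to a labelling problem for increasing tuples. -/

set_option autoImplicit false

namespace Pool.Agent.MP_8c2300_lc.h28

open Function

variable {m n : ℕ}

/-- labelling problem: labels of the increasing `(m+1)`-tuples and of the increasing `m`-tuples,
compatible along faces, every demand of an `m`-tuple is met by one of its extensions -/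
def ModG {α β γ : Type} (m : ℕ) (Fc : Fin (m + 1) → α → β → Prop) (Dm : β → γ → Prop)
    (St : Fin (m + 1) → γ → α → Prop) (n : ℕ) : Prop :=
  ∃ (S : (Fin (m + 1) → Fin n) → α) (R : (Fin m → Fin n) → β),
    (∀ b, StrictMono b → ∀ j, Fc j (S b) (R (b ∘ j.succAbove))) ∧
    ∀ c, StrictMono c → ∀ d, Dm (R c) d →
      ∃ b p, StrictMono b ∧ b ∘ Fin.succAbove p = c ∧ St p d (S b)

theorem sm_range_inj {r : ℕ} {b b' : Fin r → Fin n} (hb : StrictMono b) (hb' : StrictMono b')
    (h : Set.range b = Set.range b') : b = b' :=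
  (hb.range_inj hb').1 h

theorem ext_by {c : Fin m → Fin n} (hc : StrictMono c) {y : Fin n} (hy : y ∉ Set.range c) :
    ∃ (b : Fin (m + 1) → Fin n) (p : Fin (m + 1)),
      StrictMono b ∧ b ∘ Fin.succAbove p = c ∧ b p = y := by
  classical
  have hcard : (insert y (Finset.univ.image c)).card = m + 1 := by
    rw [Finset.card_insert_of_notMem (by simpa using hy),
      Finset.card_image_of_injective _ hc.injective]
    simp
  set b := (insert y (Finset.univ.image c)).orderEmbOfFin hcard with hb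
  have hr : Set.range b = insert y (Set.range c) := by
    rw [hb, Finset.range_orderEmbOfFin]; simp
  obtain ⟨p, hp⟩ : y ∈ Set.range b := by rw [hr]; exact Set.mem_insert _ _
  refine ⟨b, p, b.strictMono, sm_range_inj (b.strictMono.comp (Fin.strictMono_succAbove p)) hc ?_, hp⟩
  ext x
  constructor
  · rintro ⟨i, rfl⟩
    have : b (p.succAbove i) ∈ insert y (Set.range c) := hr ▸ Set.mem_range_self _
    rcases this with h | h
    · exact absurd (b.injective (h.trans hp.symm)) (Fin.succAbove_ne p i)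
    · exact h
  · intro hx
    obtain ⟨q, hq⟩ : x ∈ Set.range b := by rw [hr]; exact Set.mem_insert_of_mem _ hx
    have hqp : q ≠ p := by rintro rfl; exact hy (hp ▸ hq ▸ hx)
    obtain ⟨i, rfl⟩ := Fin.exists_succAbove_eq hqp
    exact ⟨i, hq⟩

theorem ext_any (hn : m + 1 ≤ n) {c : Fin m → Fin n} (hc : StrictMono c) :
    ∃ (b : Fin (m + 1) → Fin n) (p : Fin (m + 1)), StrictMono b ∧ b ∘ Fin.succAbove p = c := by
  have : ¬Surjective c := fun h => by
    have := Fintype.card_le_of_surjective c h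
    simp at this; omega
  simp only [Surjective, not_forall, not_exists] at this
  obtain ⟨y, hy⟩ := this
  obtain ⟨b, p, h1, h2, -⟩ := ext_by hc (y := y) (by rintro ⟨i, hi⟩; exact hy i hi)
  exact ⟨b, p, h1, h2⟩

/-- every assignment with at most `r` values is read off an increasing `r`-tuple -/
theorem exists_rep {k r : ℕ} (hr : r ≤ n) (a : Fin k → Option (Fin n)) (s : Finset (Fin n))
    (hs : s.card ≤ r) (ha : ∀ i x, a i = some x → x ∈ s) :
    ∃ (c : Fin r → Fin n) (g : Fin k → Option (Fin r)), StrictMono c ∧ a = Option.map c ∘ g := by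
  classical
  obtain ⟨t, hst, -, ht⟩ := Finset.exists_subsuperset_card_eq (Finset.subset_univ s) hs
    (by simpa using hr)
  have : ∀ i, ∃ q : Option (Fin r), a i = Option.map (t.orderEmbOfFin ht) q := by
    intro i
    cases h : a i with
    | none => exact ⟨none, rfl⟩
    | some x =>
      have : x ∈ Set.range (t.orderEmbOfFin ht) := by
        rw [Finset.range_orderEmbOfFin]; exact hst (ha i x h)
      obtain ⟨q, rfl⟩ := this
      exact ⟨some q, rfl⟩
  choose g hg using this
  exact ⟨_, g, (t.orderEmbOfFin ht).strictMono, funext hg⟩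

theorem factor_face {k : ℕ} (p : Fin (m + 1)) (f : Fin k → Option (Fin (m + 1)))
    (hf : ∀ i, f i ≠ some p) : ∃ g : Fin k → Option (Fin m), f = Option.map p.succAbove ∘ g := by
  have : ∀ i, ∃ q : Option (Fin m), f i = Option.map p.succAbove q := by
    intro i
    cases h : f i with
    | none => exact ⟨none, rfl⟩
    | some x =>
      obtain ⟨q, rfl⟩ := Fin.exists_succAbove_eq (x := x) (y := p) (by rintro rfl; exact hf i h)
      exact ⟨some q, rfl⟩
  choose g hg using this
  exact ⟨g, funext hg⟩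

/-- labels that agree along faces define a function of the assignment -/
theorem well_def {k : ℕ} {δ : Type} (S : (Fin (m + 1) → Fin n) → (Fin k → Option (Fin (m + 1))) → δ)
    (R : (Fin m → Fin n) → (Fin k → Option (Fin m)) → δ)
    (h : ∀ b, StrictMono b → ∀ (j : Fin (m + 1)) g,
      R (b ∘ j.succAbove) g = S b (Option.map j.succAbove ∘ g)) :
    ∀ (d : ℕ) (b b' : Fin (m + 1) → Fin n), StrictMono b → StrictMono b' →
      (Finset.univ.image b \ Finset.univ.image b').card = d → ∀ f f',
      Option.map b ∘ f = Option.map b' ∘ f' → S b f = S b' f' := by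
  classical
  intro d
  induction d with
  | zero =>
    intro b b' hb hb' hd f f' e
    have hsub := Finset.sdiff_eq_empty_iff_subset.1 (Finset.card_eq_zero.1 hd)
    have heq := Finset.eq_of_subset_of_card_le hsub (by
      rw [Finset.card_image_of_injective _ hb.injective,
        Finset.card_image_of_injective _ hb'.injective])
    have : b = b' := sm_range_inj hb hb' (by
      have := congrArg (fun s : Finset (Fin n) => (s : Set (Fin n))) heq
      simpa using this)
    subst this
    rw [show f = f' from funext fun i => Option.map_injective hb.injective (congrFun e i)]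
  | succ d ih =>
    intro b b' hb hb' hd f f' e
    obtain ⟨x, hx⟩ : (Finset.univ.image b \ Finset.univ.image b').Nonempty :=
      Finset.card_pos.1 (by omega)
    obtain ⟨hx1, hx2⟩ := Finset.mem_sdiff.1 hx
    obtain ⟨p, -, rfl⟩ := Finset.mem_image.1 hx1
    have hc : (Finset.univ.image b' \ Finset.univ.image b).card = d + 1 := by
      rw [← hd]
      apply Finset.card_sdiff_comm
      rw [Finset.card_image_of_injective _ hb.injective,
        Finset.card_image_of_injective _ hb'.injective]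
    obtain ⟨y, hy⟩ : (Finset.univ.image b' \ Finset.univ.image b).Nonempty :=
      Finset.card_pos.1 (by omega)
    obtain ⟨hy1, hy2⟩ := Finset.mem_sdiff.1 hy
    obtain ⟨g, rfl⟩ := factor_face p f (by
      intro i hi
      have := congrFun e i
      simp only [comp_apply, hi, Option.map_some] at this
      cases h' : f' i with
      | none => simp [h'] at this
      | some q =>
        simp only [h', Option.map_some, Option.some.injEq] at this
        exact hx2 (Finset.mem_image.2 ⟨q, Finset.mem_univ _, this.symm⟩))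
    have hcs := hb.comp (Fin.strictMono_succAbove p)
    obtain ⟨b2, p2, hb2, e2, hp2⟩ := ext_by hcs (y := y) (by
      rintro ⟨i, rfl⟩; exact hy2 (Finset.mem_image.2 ⟨_, Finset.mem_univ _, rfl⟩))
    rw [← h b hb p g, ← e2, h b2 hb2 p2 g]
    refine ih b2 b' hb2 hb' ?_ _ _ ?_
    · have : Finset.univ.image b2 \ Finset.univ.image b' =
          (Finset.univ.image b \ Finset.univ.image b').erase (b p) := by
        ext z
        simp only [Finset.mem_sdiff, Finset.mem_image, Finset.mem_univ, true_and, Finset.mem_erase]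
        constructor
        · rintro ⟨⟨q, rfl⟩, hz⟩
          have hq : q ≠ p2 := by
            rintro rfl; exact hz (by simpa [hp2] using hy1)
          obtain ⟨i, rfl⟩ := Fin.exists_succAbove_eq hq
          have : b2 (p2.succAbove i) = b (p.succAbove i) := congrFun e2 i
          rw [this] at hz ⊢
          exact ⟨fun h => Fin.succAbove_ne p i (hb.injective h), ⟨_, rfl⟩, hz⟩
        · rintro ⟨hne, ⟨q, rfl⟩, hz⟩
          obtain ⟨i, rfl⟩ := Fin.exists_succAbove_eq (x := q) (y := p) (by rintro rfl; exact hne rfl)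
          exact ⟨⟨p2.succAbove i, congrFun e2 i⟩, hz⟩
      rw [this, Finset.card_erase_of_mem hx, hd]; rfl
    · rw [← e]
      funext i
      simp only [comp_apply, Option.map_map, e2]

/-- subformulas -/
def Fm.subs {k : ℕ} : Fm k → List (Fm k)
  | .rel r l => [.rel r l]
  | .eq i j => [.eq i j]
  | .not φ => .not φ :: φ.subs
  | .and φ ψ => .and φ ψ :: (φ.subs ++ ψ.subs)
  | .ex i φ => .ex i φ :: φ.subs

theorem Fm.self_mem_subs {k : ℕ} (φ : Fm k) : φ ∈ φ.subs := by cases φ <;> simp [Fm.subs]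

theorem Fm.subs_trans {k : ℕ} (φ : Fm k) : ∀ ψ ∈ φ.subs, ∀ χ ∈ ψ.subs, χ ∈ φ.subs := by
  induction φ with
  | rel r l => intro ψ h; simp only [Fm.subs, List.mem_singleton] at h; subst h; exact fun _ h => h
  | eq i j => intro ψ h; simp only [Fm.subs, List.mem_singleton] at h; subst h; exact fun _ h => h
  | not φ ih =>
    intro ψ h χ hχ
    rcases List.mem_cons.1 h with rfl | h
    · exact hχ
    · exact List.mem_cons_of_mem _ (ih ψ h χ hχ)
  | and φ φ' ih ih' =>
    intro ψ h χ hχ
    rcases List.mem_cons.1 h with rfl | h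
    · exact hχ
    · refine List.mem_cons_of_mem _ (List.mem_append.2 ?_)
      exact (List.mem_append.1 h).imp (fun h => ih ψ h χ hχ) fun h => ih' ψ h χ hχ
  | ex i φ ih =>
    intro ψ h χ hχ
    rcases List.mem_cons.1 h with rfl | h
    · exact hχ
    · exact List.mem_cons_of_mem _ (ih ψ h χ hχ)

/-- types: for every way to read an assignment off a tuple, a set of subformulas -/
def Ty {k : ℕ} (φ : Fm k) (r : ℕ) : Type :=
  {σ : (Fin k → Option (Fin r)) → Set (Fm k) // ∀ f, σ f ⊆ {ψ | ψ ∈ φ.subs}}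

instance {k : ℕ} (φ : Fm k) (r : ℕ) : Finite (Ty φ r) := by
  have : Finite {s : Set (Fm k) // s ⊆ {ψ | ψ ∈ φ.subs}} :=
    (List.finite_toSet φ.subs).finite_subsets.to_subtype
  refine Finite.of_injective (β := (Fin k → Option (Fin r)) → {s : Set (Fm k) // s ⊆ {ψ | ψ ∈ φ.subs}})
    (fun σ f => ⟨σ.1 f, σ.2 f⟩) fun σ τ h => Subtype.ext (funext fun f => ?_)
  exact congrArg Subtype.val (congrFun h f)

instance {k : ℕ} (φ : Fm k) (r : ℕ) : Nonempty (Ty φ r) :=
  ⟨⟨fun _ => ∅, fun _ => Set.empty_subset _⟩⟩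

/-- local consistency of a family of sets of subformulas -/
structure Good {k : ℕ} {A : Type} (φ : Fm k) (σ : (Fin k → Option A) → Set (Fm k)) : Prop where
  not : ∀ ψ f, Fm.not ψ ∈ φ.subs → (Fm.not ψ ∈ σ f ↔ ψ ∉ σ f)
  and : ∀ ψ χ f, Fm.and ψ χ ∈ φ.subs → (Fm.and ψ χ ∈ σ f ↔ ψ ∈ σ f ∧ χ ∈ σ f)
  eq : ∀ i j f, Fm.eq i j ∈ φ.subs → (Fm.eq i j ∈ σ f ↔ f i = f j)
  rel : ∀ r l l' f f', Fm.rel r l ∈ φ.subs → l.map f = l'.map f' → Fm.rel r l' ∈ σ f' →
    Fm.rel r l ∈ σ f
  ex1 : ∀ i ψ f, Fm.ex i ψ ∈ φ.subs → (Fm.ex i ψ ∈ σ f ↔ Fm.ex i ψ ∈ σ (update f i none))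
  ex2 : ∀ i ψ f, Fm.ex i ψ ∈ φ.subs → ψ ∈ σ f → Fm.ex i ψ ∈ σ f
  root : ∀ f, φ ∈ σ f

def sFc (φ : Fm (m + 1)) (j : Fin (m + 1)) (σ : Ty φ (m + 1)) (ρ : Ty φ m) : Prop :=
  Good φ σ.1 ∧ ∀ g, ρ.1 g = σ.1 (Option.map j.succAbove ∘ g)

def sDm (φ : Fm (m + 1)) (ρ : Ty φ m)
    (d : (Fin (m + 1) → Option (Fin m)) × {ψ // ψ ∈ φ.subs}) : Prop := d.2.1 ∈ ρ.1 d.1

def sSt (φ : Fm (m + 1)) (p : Fin (m + 1))
    (d : (Fin (m + 1) → Option (Fin m)) × {ψ // ψ ∈ φ.subs}) (σ : Ty φ (m + 1)) : Prop :=
  ∀ i χ, d.2.1 = Fm.ex i χ → ∃ q, χ ∈ σ.1 (update (Option.map p.succAbove ∘ d.1) i q)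

theorem mod_of_model (φ : Fm (m + 1)) (hn : m + 1 ≤ n) (I : ℕ → List (Option (Fin n)) → Prop)
    (hI : ∀ v, Sat I φ v) : ModG m (sFc φ) (sDm φ) (sSt φ) n := by
  refine ⟨fun b => ⟨fun f => {ψ | ψ ∈ φ.subs ∧ Sat I ψ (Option.map b ∘ f)}, fun _ _ h => h.1⟩,
    fun c => ⟨fun f => {ψ | ψ ∈ φ.subs ∧ Sat I ψ (Option.map c ∘ f)}, fun _ _ h => h.1⟩,
    fun b hb j => ⟨⟨?_, ?_, ?_, ?_, ?_, ?_, ?_⟩, ?_⟩, ?_⟩
  · intro ψ f h
    have := φ.subs_trans _ h ψ (List.mem_cons_of_mem _ ψ.self_mem_subs)
    simp [h, this, Sat]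
  · intro ψ χ f h
    have h1 := φ.subs_trans _ h ψ (List.mem_cons_of_mem _ (List.mem_append_left _ ψ.self_mem_subs))
    have h2 := φ.subs_trans _ h χ (List.mem_cons_of_mem _ (List.mem_append_right _ χ.self_mem_subs))
    simp [h, h1, h2, Sat]
  · intro i j f h
    simp [h, Sat, (Option.map_injective hb.injective).eq_iff]
  · intro r l l' f f' h e h'
    refine ⟨h, ?_⟩
    have := h'.2
    simp only [Sat, ← List.map_map] at this ⊢
    rwa [e]
  · intro i ψ f h
    simp [h, Sat, comp_update]
  · intro i ψ f h h'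
    exact ⟨h, (Option.map b ∘ f) i, by rw [update_eq_self]; exact h'.2⟩
  · intro f; exact ⟨φ.self_mem_subs, hI _⟩
  · intro g
    ext ψ
    simp only [Set.mem_ofPred_eq]
    rw [show Option.map (b ∘ j.succAbove) ∘ g = Option.map b ∘ (Option.map j.succAbove ∘ g) from
      funext fun i => by simp]
  · rintro c hc ⟨g, ψ, hψ⟩ hd
    have key : ∀ y : Option (Fin n), ∃ (b : Fin (m + 1) → Fin n) (p : Fin (m + 1))
        (q : Option (Fin (m + 1))), StrictMono b ∧ b ∘ Fin.succAbove p = c ∧ Option.map b q = y := by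
      intro y
      cases y with
      | none => obtain ⟨b, p, h1, h2⟩ := ext_any hn hc; exact ⟨b, p, none, h1, h2, rfl⟩
      | some y =>
        by_cases hy : y ∈ Set.range c
        · obtain ⟨i, rfl⟩ := hy
          obtain ⟨b, p, h1, h2⟩ := ext_any hn hc
          exact ⟨b, p, some (p.succAbove i), h1, h2, by simp [← h2]⟩
        · obtain ⟨b, p, h1, h2, h3⟩ := ext_by hc hy
          exact ⟨b, p, some p, h1, h2, by simp [h3]⟩
    by_cases hex : ∃ i χ, ψ = Fm.ex i χ
    · obtain ⟨i, χ, rfl⟩ := hex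
      obtain ⟨y, hy⟩ := hd.2
      obtain ⟨b, p, q, h1, h2, h3⟩ := key y
      refine ⟨b, p, h1, h2, fun i' χ' e => ?_⟩
      obtain ⟨rfl, rfl⟩ : i = i' ∧ χ = χ' := by simpa using e
      refine ⟨q, φ.subs_trans _ hψ χ (List.mem_cons_of_mem _ χ.self_mem_subs), ?_⟩
      rw [comp_update, h3]
      rwa [show Option.map b ∘ (Option.map p.succAbove ∘ g) = Option.map c ∘ g from
        funext fun i => by simp [← h2]]
    · obtain ⟨b, p, h1, h2⟩ := ext_any hn hc
      exact ⟨b, p, h1, h2, fun i χ e => absurd ⟨i, χ, e⟩ hex⟩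

theorem model_of_mod (φ : Fm (m + 1)) (hn : m + 1 ≤ n) (h : ModG m (sFc φ) (sDm φ) (sSt φ) n) :
    ∃ I : ℕ → List (Option (Fin n)) → Prop, ∀ v, Sat I φ v := by
  classical
  obtain ⟨S, R, hF, hD⟩ := h
  have vals : ∀ (a : Fin (m + 1) → Option (Fin n)) (t : Finset (Fin (m + 1))),
      (∀ i, i ∉ t → a i = none) → ∃ s : Finset (Fin n), s.card ≤ t.card ∧
        (∀ i x, a i = some x → x ∈ s) ∧ ∀ x ∈ s, ∃ i ∈ t, a i = some x := by
    intro a t ht
    refine ⟨Finset.univ.filter fun x => ∃ i ∈ t, a i = some x, ?_, fun i x hx => ?_, fun x hx => ?_⟩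
    · have : (Finset.univ.filter fun x => ∃ i ∈ t, a i = some x).image some ⊆ t.image a := by
        intro z hz
        obtain ⟨x, hx, rfl⟩ := Finset.mem_image.1 hz
        obtain ⟨i, hi, e⟩ := (Finset.mem_filter.1 hx).2
        exact Finset.mem_image.2 ⟨i, hi, e⟩
      have := Finset.card_le_card this
      rw [Finset.card_image_of_injective _ (Option.some_injective _)] at this
      exact this.trans Finset.card_image_le
    · refine Finset.mem_filter.2 ⟨Finset.mem_univ _, i, ?_, hx⟩
      by_contra hi; rw [ht i hi] at hx; cases hx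
    · exact (Finset.mem_filter.1 hx).2
  have rep : ∀ a : Fin (m + 1) → Option (Fin n), ∃ (b : Fin (m + 1) → Fin n)
      (f : Fin (m + 1) → Option (Fin (m + 1))), StrictMono b ∧ a = Option.map b ∘ f := by
    intro a
    obtain ⟨s, h1, h2, -⟩ := vals a Finset.univ (by simp)
    exact exists_rep hn a s (by simpa using h1) h2
  choose bb ff hbb hff using rep
  let σ : (Fin (m + 1) → Option (Fin n)) → Set (Fm (m + 1)) := fun a => (S (bb a)).1 (ff a)
  have wd : ∀ b, StrictMono b → ∀ f, σ (Option.map b ∘ f) = (S b).1 f := fun b hb f =>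
    well_def (fun b => (S b).1) (fun c => (R c).1) (fun b hb j g => (hF b hb j).2 g) _ _ _
      (hbb _) hb rfl _ _ (hff _).symm
  have gd : ∀ a, Good φ (S (bb a)).1 := fun a => (hF _ (hbb a) 0).1
  have inv : ∀ i ψ a, Fm.ex i ψ ∈ φ.subs → (Fm.ex i ψ ∈ σ a ↔ Fm.ex i ψ ∈ σ (update a i none)) := by
    intro i ψ a h
    rw [show update a i none = Option.map (bb a) ∘ update (ff a) i none by
      rw [comp_update, ← hff a]; rfl, wd _ (hbb a)]
    exact (gd a).ex1 i ψ _ h
  let I : ℕ → List (Option (Fin n)) → Prop := fun r l => ∃ a l', l'.map a = l ∧ Fm.rel r l' ∈ σ a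
  have key : ∀ ψ, ψ ∈ φ.subs → ∀ a, Sat I ψ a ↔ ψ ∈ σ a := by
    intro ψ
    induction ψ with
    | rel r l =>
      intro h a
      refine ⟨?_, fun h => ⟨a, l, rfl, h⟩⟩
      rintro ⟨a', l', e, h'⟩
      have : ∀ i, ∃ q, i ∈ l' → Option.map (bb a) q = a' i := by
        intro i
        by_cases hi : i ∈ l'
        · have : a' i ∈ l.map a := e ▸ List.mem_map_of_mem hi
          obtain ⟨i', -, e'⟩ := List.mem_map.1 this
          exact ⟨ff a i', fun _ => by rw [← e']; exact (congrFun (hff a) i').symm⟩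
        · exact ⟨none, fun h => absurd h hi⟩
      choose f2 hf2 using this
      let f3 : Fin (m + 1) → Option (Fin (m + 1)) := fun i => if i ∈ l' then f2 i else none
      let f4 : Fin (m + 1) → Option (Fin (m + 1)) := fun i => if i ∈ l' then ff a' i else none
      have hsub := (S (bb a')).2 _ h'
      have h4 : Fm.rel r l' ∈ (S (bb a')).1 f4 :=
        (gd a').rel r l' l' f4 (ff a') hsub (List.map_congr_left fun i hi => if_pos hi) h'
      have e34 : Option.map (bb a') ∘ f4 = Option.map (bb a) ∘ f3 := by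
        funext i
        by_cases hi : i ∈ l'
        · simp only [comp_apply, f3, f4, if_pos hi, hf2 i hi]
          exact (congrFun (hff a') i).symm
        · simp [f3, f4, hi]
      rw [← wd _ (hbb a'), e34, wd _ (hbb a)] at h4
      refine (gd a).rel r l l' (ff a) f3 h ?_ h4
      apply List.map_injective_iff.2 (Option.map_injective (hbb a).injective)
      rw [List.map_map, List.map_map, ← hff a, ← e]
      exact List.map_congr_left fun i hi => by simp [f3, hi, hf2 i hi]
    | eq i j =>
      intro h a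
      rw [(gd a).eq i j _ h, ← (Option.map_injective (hbb a).injective).eq_iff]
      simp only [Sat]
      rw [show Option.map (bb a) (ff a i) = a i from (congrFun (hff a) i).symm,
        show Option.map (bb a) (ff a j) = a j from (congrFun (hff a) j).symm]
    | not ψ ih =>
      intro h a
      rw [(gd a).not ψ _ h, Sat, ih (φ.subs_trans _ h ψ (List.mem_cons_of_mem _ ψ.self_mem_subs))]
    | and ψ χ ih1 ih2 =>
      intro h a
      rw [(gd a).and ψ χ _ h, Sat,
        ih1 (φ.subs_trans _ h ψ (List.mem_cons_of_mem _ (List.mem_append_left _ ψ.self_mem_subs))),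
        ih2 (φ.subs_trans _ h χ (List.mem_cons_of_mem _ (List.mem_append_right _ χ.self_mem_subs)))]
    | ex i ψ ih =>
      intro h a
      have ih' := ih (φ.subs_trans _ h ψ (List.mem_cons_of_mem _ ψ.self_mem_subs))
      simp only [Sat, ih']
      constructor
      · rintro ⟨y, hy⟩
        have := (inv i ψ _ h).1 ((gd _).ex2 i ψ _ h hy)
        rw [update_idem] at this
        exact (inv i ψ a h).2 this
      · intro hy
        have h0 := (inv i ψ a h).1 hy
        obtain ⟨s, h1, h2, -⟩ := vals (update a i none) (Finset.univ.erase i) (by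
          intro i' hi'
          have : i' = i := by simpa using hi'
          simp [this])
        obtain ⟨c, g, hc, e⟩ := exists_rep (r := m) (by omega) _ s (by simpa using h1) h2
        obtain ⟨b0, p0, hb0, e0⟩ := ext_any hn hc
        have ec : ∀ (b : Fin (m + 1) → Fin n) (p : Fin (m + 1)), b ∘ Fin.succAbove p = c →
            Option.map b ∘ (Option.map p.succAbove ∘ g) = update a i none := by
          intro b p e'
          rw [e]; funext i; simp [← e']
        have hd : sDm φ (R c) (g, ⟨_, h⟩) := by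
          show Fm.ex i ψ ∈ (R c).1 g
          rw [← e0, (hF b0 hb0 p0).2 g, ← wd _ hb0, ec b0 p0 e0]
          exact h0
        obtain ⟨b, p, hb, e', hs⟩ := hD c hc _ hd
        obtain ⟨q, hq⟩ := hs i ψ rfl
        rw [← wd _ hb, comp_update, ec b p e', update_idem] at hq
        exact ⟨_, hq⟩
  exact ⟨I, fun v => (key φ φ.self_mem_subs v).2 ((gd v).root _)⟩

theorem mod_iff (φ : Fm (m + 1)) (hn : m + 1 ≤ n) :
    ModG m (sFc φ) (sDm φ) (sSt φ) n ↔ n + 1 ∈ spectrum φ := by
  have := mem_spectrum_iff (A := Option (Fin n)) φ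
  rw [Fintype.card_option, Fintype.card_fin] at this
  rw [this]
  exact ⟨model_of_mod φ hn, fun ⟨I, hI⟩ => mod_of_model φ hn I hI⟩

end Pool.Agent.MP_8c2300_lc.h28
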