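import Mathlib.Data.Fintype.Sort
import Mathlib.Algebra.Field.ZMod
import Mathlib.Analysis.SpecificLimits.Normed
import Mathlib.Tactic.Algebra.Basic
import Pool.Agent.MP_8c2300_lc.h28.Basic
import Pool.Agent.MP_8c2300_lc.h28.Sys

-- ======== part 0: formerly Pool.Agent.MP_8c2300_lc.h28.Df
section MrgPart0

/-! Definability with a bounded number of variables, relative to a class of finite structures. -/

set_option autoImplicit false

namespace Pool.Agent.MP_8c2300_lc.h28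

open Function

/-- finite structures -/
structure Str where
  N : ℕ
  I : ℕ → List (Fin N) → Prop

/-- definability in the class `H` by a formula with `K` variables -/
def Df (K : ℕ) (H : Str → Prop) (P : ∀ s : Str, (Fin K → Fin s.N) → Prop) : Prop :=
  ∃ φ : Fm K, ∀ s, H s → ∀ v, Sat s.I φ v ↔ P s v

variable {K : ℕ} {H H' : Str → Prop}

namespace Df

variable {P Q : ∀ s : Str, (Fin K → Fin s.N) → Prop}

theorem congr (h : Df K H P) (e : ∀ s, H s → ∀ v, P s v ↔ Q s v) : Df K H Q := by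
  obtain ⟨φ, h⟩ := h
  exact ⟨φ, fun s hs v => (h s hs v).trans (e s hs v)⟩

theorem mono (h : Df K H P) (e : ∀ s, H' s → H s) : Df K H' P := by
  obtain ⟨φ, h⟩ := h
  exact ⟨φ, fun s hs v => h s (e s hs) v⟩

theorem rel (r : ℕ) (l : List (Fin K)) : Df K H fun s v => s.I r (l.map v) :=
  ⟨.rel r l, fun _ _ _ => Iff.rfl⟩

theorem eq (i j : Fin K) : Df K H fun _ v => v i = v j := ⟨.eq i j, fun _ _ _ => Iff.rfl⟩

theorem not (h : Df K H P) : Df K H fun s v => ¬P s v := by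
  obtain ⟨φ, h⟩ := h
  exact ⟨.not φ, fun s hs v => not_congr (h s hs v)⟩

theorem and (h : Df K H P) (h' : Df K H Q) : Df K H fun s v => P s v ∧ Q s v := by
  obtain ⟨φ, h⟩ := h
  obtain ⟨ψ, h'⟩ := h'
  exact ⟨.and φ ψ, fun s hs v => and_congr (h s hs v) (h' s hs v)⟩

theorem ex (i : Fin K) (h : Df K H P) : Df K H fun s v => ∃ a, P s (update v i a) := by
  obtain ⟨φ, h⟩ := h
  exact ⟨.ex i φ, fun s hs v => exists_congr fun a => h s hs _⟩

theorem or (h : Df K H P) (h' : Df K H Q) : Df K H fun s v => P s v ∨ Q s v :=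
  (h.not.and h'.not).not.congr fun _ _ _ => by tauto

theorem imp (h : Df K H P) (h' : Df K H Q) : Df K H fun s v => P s v → Q s v :=
  (h.and h'.not).not.congr fun _ _ _ => by tauto

theorem iff (h : Df K H P) (h' : Df K H Q) : Df K H fun s v => P s v ↔ Q s v :=
  ((h.imp h').and (h'.imp h)).congr fun _ _ _ => by tauto

theorem all (i : Fin K) (h : Df K H P) : Df K H fun s v => ∀ a, P s (update v i a) :=
  (h.not.ex i).not.congr fun _ _ _ => by simp

theorem fls : Df K H fun _ _ => False :=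
  ((rel 0 []).and (rel 0 []).not).congr fun _ _ _ => by tauto

theorem tru : Df K H fun _ _ => True := fls.not.congr fun _ _ _ => by tauto

theorem const (p : Prop) : Df K H fun _ _ => p := by
  by_cases h : p
  · exact tru.congr fun _ _ _ => by tauto
  · exact fls.congr fun _ _ _ => by tauto

theorem allF {ι : Type} [Finite ι] {R : ι → ∀ s : Str, (Fin K → Fin s.N) → Prop}
    (h : ∀ p, Df K H (R p)) : Df K H fun s v => ∀ p, R p s v := by
  classical
  have := Fintype.ofFinite ι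
  have : ∀ t : Finset ι, Df K H fun s v => ∀ p ∈ t, R p s v := by
    intro t
    induction t using Finset.induction_on with
    | empty => exact tru.congr fun _ _ _ => by simp
    | insert a t _ ih => exact ((h a).and ih).congr fun _ _ _ => by simp
  exact (this Finset.univ).congr fun _ _ _ => by simp

theorem exF {ι : Type} [Finite ι] {R : ι → ∀ s : Str, (Fin K → Fin s.N) → Prop}
    (h : ∀ p, Df K H (R p)) : Df K H fun s v => ∃ p, R p s v :=
  (allF fun p => (h p).not).not.congr fun _ _ _ => by simp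

/-- universal closure -/
theorem close (h : Df K H P) : Df K H fun s _ => ∀ w, P s w := by
  classical
  have : ∀ t : Finset (Fin K), Df K H fun s v => ∀ w, (∀ i, i ∉ t → w i = v i) → P s w := by
    intro t
    induction t using Finset.induction_on with
    | empty =>
      exact h.congr fun _ _ v => ⟨fun hv w hw => by rwa [show w = v from funext fun i => hw i (by simp)],
        fun hv => hv v fun _ _ => rfl⟩
    | insert a t ha ih =>
      refine (ih.all a).congr fun _ _ v => ⟨fun hv w hw => hv (w a) w fun i hi => ?_,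
        fun hv x w hw => hv w fun i hi => ?_⟩
      · by_cases e : i = a
        · subst e; simp
        · rw [update_of_ne e]; exact hw i (by simp [e, hi])
      · have : i ≠ a ∧ i ∉ t := by simpa using hi
        rw [hw i this.2, update_of_ne this.1]
  exact (this Finset.univ).congr fun _ _ _ => by simp

/-- a sentence relative to the class cut out by another sentence -/
theorem cut {A B : Str → Prop} (h : Df K H fun s _ => A s)
    (h' : Df K (fun s => H s ∧ A s) fun s _ => B s) : Df K H fun s _ => A s ∧ B s := by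
  obtain ⟨φ, h⟩ := h
  obtain ⟨ψ, h'⟩ := h'
  refine ⟨.and φ ψ, fun s hs v => ?_⟩
  show Sat s.I φ v ∧ Sat s.I ψ v ↔ _
  rw [h s hs v]
  exact and_congr_right fun hA => h' s ⟨hs, hA⟩ v

end Df

/-- four-place relations definable in any four distinct variables -/
def D4 (K : ℕ) (H : Str → Prop)
    (P : ∀ s : Str, Fin s.N → Fin s.N → Fin s.N → Fin s.N → Prop) : Prop :=
  ∀ e : Fin 4 ↪ Fin K, Df K H fun s v => P s (v (e 0)) (v (e 1)) (v (e 2)) (v (e 3))

def D3 (K : ℕ) (H : Str → Prop) (P : ∀ s : Str, Fin s.N → Fin s.N → Fin s.N → Prop) : Prop :=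
  ∀ i j l : Fin K, Df K H fun s v => P s (v i) (v j) (v l)

def D2 (K : ℕ) (H : Str → Prop) (P : ∀ s : Str, Fin s.N → Fin s.N → Prop) : Prop :=
  ∀ i j : Fin K, Df K H fun s v => P s (v i) (v j)

def D1 (K : ℕ) (H : Str → Prop) (P : ∀ s : Str, Fin s.N → Prop) : Prop :=
  ∀ i : Fin K, Df K H fun s v => P s (v i)

def D0 (K : ℕ) (H : Str → Prop) (P : Str → Prop) : Prop := Df K H fun s _ => P s

/-- projections -/
def Sel (f : ∀ s : Str, Fin s.N → Fin s.N → Fin s.N → Fin s.N → Fin s.N) : Prop :=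
  ∃ i : Fin 4, ∀ s x y z w, f s x y z w = ![x, y, z, w] i

theorem sel0 : Sel fun _ x _ _ _ => x := ⟨0, fun _ _ _ _ _ => rfl⟩
theorem sel1 : Sel fun _ _ y _ _ => y := ⟨1, fun _ _ _ _ _ => rfl⟩
theorem sel2 : Sel fun _ _ _ z _ => z := ⟨2, fun _ _ _ _ _ => rfl⟩
theorem sel3 : Sel fun _ _ _ _ w => w := ⟨3, fun _ _ _ _ _ => rfl⟩

theorem Sel.out {f : ∀ s : Str, Fin s.N → Fin s.N → Fin s.N → Fin s.N → Fin s.N} (h : Sel f)
    (e : Fin 4 ↪ Fin K) : ∃ i : Fin K, ∀ (s : Str) (v : Fin K → Fin s.N),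
      f s (v (e 0)) (v (e 1)) (v (e 2)) (v (e 3)) = v i := by
  obtain ⟨i, h⟩ := h
  exact ⟨e i, fun s v => by rw [h]; fin_cases i <;> rfl⟩

theorem D3.rel (r : ℕ) : D3 K H fun s x y z => s.I r [x, y, z] := fun i j l => Df.rel r [i, j, l]
theorem D2.rel (r : ℕ) : D2 K H fun s x y => s.I r [x, y] := fun i j => Df.rel r [i, j]
theorem D1.rel (r : ℕ) : D1 K H fun s x => s.I r [x] := fun i => Df.rel r [i]
theorem D2.eq : D2 K H fun _ x y => x = y := fun i j => Df.eq i j

theorem D2.mono {P : ∀ s : Str, Fin s.N → Fin s.N → Prop} (h : D2 K H P) (e : ∀ s, H' s → H s) :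
    D2 K H' P := fun i j => (h i j).mono e

theorem D2.congr {P Q : ∀ s : Str, Fin s.N → Fin s.N → Prop} (h : D2 K H P)
    (e : ∀ s, H s → ∀ x y, P s x y ↔ Q s x y) : D2 K H Q :=
  fun i j => (h i j).congr fun s hs _ => e s hs _ _

theorem D1.congr {P Q : ∀ s : Str, Fin s.N → Prop} (h : D1 K H P)
    (e : ∀ s, H s → ∀ x, P s x ↔ Q s x) : D1 K H Q :=
  fun i => (h i).congr fun s hs _ => e s hs _

theorem D0.congr {P Q : Str → Prop} (h : D0 K H P) (e : ∀ s, H s → (P s ↔ Q s)) : D0 K H Q :=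
  Df.congr h fun s hs _ => e s hs

namespace D4

variable {P Q : ∀ s : Str, Fin s.N → Fin s.N → Fin s.N → Fin s.N → Prop}
  {f g h : ∀ s : Str, Fin s.N → Fin s.N → Fin s.N → Fin s.N → Fin s.N}

theorem at0 {R : Str → Prop} (hR : D0 K H R) : D4 K H fun s _ _ _ _ => R s := fun _ => hR

theorem at1 {R : ∀ s : Str, Fin s.N → Prop} (hR : D1 K H R) (hf : Sel f) :
    D4 K H fun s x y z w => R s (f s x y z w) := fun e => by
  obtain ⟨i, hi⟩ := hf.out e
  exact (hR i).congr fun s _ v => by simp only [hi]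

theorem at2 {R : ∀ s : Str, Fin s.N → Fin s.N → Prop} (hR : D2 K H R) (hf : Sel f) (hg : Sel g) :
    D4 K H fun s x y z w => R s (f s x y z w) (g s x y z w) := fun e => by
  obtain ⟨i, hi⟩ := hf.out e
  obtain ⟨j, hj⟩ := hg.out e
  exact (hR i j).congr fun s _ v => by simp only [hi, hj]

theorem at3 {R : ∀ s : Str, Fin s.N → Fin s.N → Fin s.N → Prop} (hR : D3 K H R) (hf : Sel f)
    (hg : Sel g) (hh : Sel h) :
    D4 K H fun s x y z w => R s (f s x y z w) (g s x y z w) (h s x y z w) := fun e => by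
  obtain ⟨i, hi⟩ := hf.out e
  obtain ⟨j, hj⟩ := hg.out e
  obtain ⟨l, hl⟩ := hh.out e
  exact (hR i j l).congr fun s _ v => by simp only [hi, hj, hl]

theorem rel1 {r : ℕ} (hf : Sel f) : D4 K H fun s x y z w => s.I r [f s x y z w] :=
  at1 (D1.rel r) hf

theorem rel2 {r : ℕ} (hf : Sel f) (hg : Sel g) :
    D4 K H fun s x y z w => s.I r [f s x y z w, g s x y z w] := at2 (D2.rel r) hf hg

theorem rel3 {r : ℕ} (hf : Sel f) (hg : Sel g) (hh : Sel h) :
    D4 K H fun s x y z w => s.I r [f s x y z w, g s x y z w, h s x y z w] :=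
  at3 (D3.rel r) hf hg hh

theorem eq (hf : Sel f) (hg : Sel g) : D4 K H fun s x y z w => f s x y z w = g s x y z w :=
  at2 D2.eq hf hg

theorem ne (hf : Sel f) (hg : Sel g) : D4 K H fun s x y z w => f s x y z w ≠ g s x y z w :=
  fun e => (eq hf hg e).not

theorem const (p : Prop) : D4 K H fun _ _ _ _ _ => p := fun _ => Df.const p

theorem not (h : D4 K H P) : D4 K H fun s x y z w => ¬P s x y z w := fun e => (h e).not

theorem and (h : D4 K H P) (h' : D4 K H Q) : D4 K H fun s x y z w => P s x y z w ∧ Q s x y z w :=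
  fun e => (h e).and (h' e)

theorem or (h : D4 K H P) (h' : D4 K H Q) : D4 K H fun s x y z w => P s x y z w ∨ Q s x y z w :=
  fun e => (h e).or (h' e)

theorem imp (h : D4 K H P) (h' : D4 K H Q) : D4 K H fun s x y z w => P s x y z w → Q s x y z w :=
  fun e => (h e).imp (h' e)

theorem iff (h : D4 K H P) (h' : D4 K H Q) : D4 K H fun s x y z w => P s x y z w ↔ Q s x y z w :=
  fun e => (h e).iff (h' e)

theorem allF {r : ℕ} {R : Fin r → ∀ s : Str, Fin s.N → Fin s.N → Fin s.N → Fin s.N → Prop}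
    (h : ∀ p, D4 K H (R p)) : D4 K H fun s x y z w => ∀ p, R p s x y z w :=
  fun e => Df.allF fun p => h p e

theorem exF {r : ℕ} {R : Fin r → ∀ s : Str, Fin s.N → Fin s.N → Fin s.N → Fin s.N → Prop}
    (h : ∀ p, D4 K H (R p)) : D4 K H fun s x y z w => ∃ p, R p s x y z w :=
  fun e => Df.exF fun p => h p e

theorem ex0 (h : D4 K H P) : D4 K H fun s _ y z w => ∃ a, P s a y z w :=
  fun e => ((h e).ex (e 0)).congr fun _ _ _ => by simp
theorem ex1 (h : D4 K H P) : D4 K H fun s x _ z w => ∃ a, P s x a z w :=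
  fun e => ((h e).ex (e 1)).congr fun _ _ _ => by simp
theorem ex2 (h : D4 K H P) : D4 K H fun s x y _ w => ∃ a, P s x y a w :=
  fun e => ((h e).ex (e 2)).congr fun _ _ _ => by simp
theorem ex3 (h : D4 K H P) : D4 K H fun s x y z _ => ∃ a, P s x y z a :=
  fun e => ((h e).ex (e 3)).congr fun _ _ _ => by simp
theorem all0 (h : D4 K H P) : D4 K H fun s _ y z w => ∀ a, P s a y z w :=
  fun e => ((h e).all (e 0)).congr fun _ _ _ => by simp
theorem all1 (h : D4 K H P) : D4 K H fun s x _ z w => ∀ a, P s x a z w :=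
  fun e => ((h e).all (e 1)).congr fun _ _ _ => by simp
theorem all2 (h : D4 K H P) : D4 K H fun s x y _ w => ∀ a, P s x y a w :=
  fun e => ((h e).all (e 2)).congr fun _ _ _ => by simp
theorem all3 (h : D4 K H P) : D4 K H fun s x y z _ => ∀ a, P s x y z a :=
  fun e => ((h e).all (e 3)).congr fun _ _ _ => by simp

end D4

theorem exists_fresh (hK : 4 ≤ K) (i j l : Fin K) : ∃ r, r ≠ i ∧ r ≠ j ∧ r ≠ l := by
  classical
  have : ({i, j, l} : Finset (Fin K)).card < (Finset.univ : Finset (Fin K)).card :=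
    lt_of_le_of_lt Finset.card_le_three (by simp; omega)
  obtain ⟨r, -, hr⟩ := Finset.exists_mem_notMem_of_card_lt_card this
  exact ⟨r, by simpa using hr⟩

theorem exists_emb (hK : 4 ≤ K) {i j : Fin K} (h : i ≠ j) :
    ∃ e : Fin 4 ↪ Fin K, e 0 = i ∧ e 1 = j := by
  obtain ⟨l, h1, h2, -⟩ := exists_fresh hK i j j
  obtain ⟨r, h3, h4, h5⟩ := exists_fresh hK i j l
  refine ⟨⟨![i, j, l, r], fun a b => ?_⟩, rfl, rfl⟩
  fin_cases a <;> fin_cases b <;> simp [h, h1, h2, h3, h4, h5, h.symm, h1.symm, h2.symm, h3.symm,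
    h4.symm, h5.symm]

theorem D4.to1 (hK : 4 ≤ K) {R : ∀ s : Str, Fin s.N → Prop} (h : D4 K H fun s x _ _ _ => R s x) :
    D1 K H R := fun i => by
  obtain ⟨j, hj, -⟩ := exists_fresh hK i i i
  obtain ⟨e, rfl, -⟩ := exists_emb hK hj.symm
  exact h e

theorem D4.to0 (hK : 4 ≤ K) {R : Str → Prop} (h : D4 K H fun s _ _ _ _ => R s) : D0 K H R :=
  h (Fin.castLEEmb hK)

theorem D4.to2 (hK : 4 ≤ K) {R : ∀ s : Str, Fin s.N → Fin s.N → Prop}
    (h : D4 K H fun s x y _ _ => R s x y) : D2 K H R := fun i j => by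
  by_cases hij : i = j
  · subst hij
    have : D4 K H fun s x _ _ _ => ∃ a, a = x ∧ R s x a := D4.ex1 ((D4.eq sel1 sel0).and h)
    exact (D4.to1 hK this i).congr fun _ _ _ => by simp
  · obtain ⟨e, rfl, rfl⟩ := exists_emb hK hij
    exact h e

end Pool.Agent.MP_8c2300_lc.h28

end MrgPart0

-- ======== part 1: formerly Pool.Agent.MP_8c2300_lc.h28.Arith
section MrgPart1

/-! Built-in order, binary digits, a fast growing sequence of anchors and tables. -/

set_option autoImplicit false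

namespace Pool.Agent.MP_8c2300_lc.h28

open Function

variable {K : ℕ} {H : Str → Prop}

def OrdS (s : Str) : Prop := ∀ x y, s.I 0 [x, y] ↔ x < y

/-- a copy of `Fin N` without its order -/
def Cp (N : ℕ) : Type := Fin N

theorem exists_sort {N : ℕ} (r : Fin N → Fin N → Prop) (h1 : ∀ x, ¬r x x)
    (h2 : ∀ x y z, r x y → r y z → r x z) (h3 : ∀ x y, r x y ∨ x = y ∨ r y x) :
    ∃ e : Fin N ≃ Fin N, ∀ x y, r (e x) (e y) ↔ x < y := by
  classical
  let r' : Cp N → Cp N → Prop := r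
  haveI : IsStrictTotalOrder (Cp N) r' :=
    { trichotomous := fun x y hx hy => by
        rcases h3 x y with h | h | h
        · exact absurd h hx
        · exact h
        · exact absurd h hy
      irrefl := h1
      trans := h2 }
  letI : LinearOrder (Cp N) := linearOrderOfSTO r'
  letI : Fintype (Cp N) := inferInstanceAs (Fintype (Fin N))
  let e := monoEquivOfFin (Cp N) (k := N) (Fintype.card_fin N)
  exact ⟨e.toEquiv, fun x y => e.lt_iff_lt⟩

theorem spec_of_ord (hK : 4 ≤ K) {Q : Str → Prop} (h : D0 K OrdS Q) :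
    {N | 0 < N ∧ ∃ I, OrdS ⟨N, I⟩ ∧ Q ⟨N, I⟩} ∈ Spec K := by
  have hl : D0 K (fun _ => True) fun s => (∀ x, ¬s.I 0 [x, x]) ∧
      (∀ x y z, s.I 0 [x, y] → s.I 0 [y, z] → s.I 0 [x, z]) ∧
      ∀ x y, s.I 0 [x, y] ∨ x = y ∨ s.I 0 [y, x] := by
    apply D4.to0 hK
    with_reducible repeat' first
      | exact sel0 | exact sel1 | exact sel2 | exact sel3 | apply D4.rel1 | apply D4.rel2
      | apply D4.rel3 | apply D4.eq | apply D4.ne | apply D4.not | apply D4.and | apply D4.or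
      | apply D4.iff | apply D4.imp | apply D4.ex0 | apply D4.ex1 | apply D4.ex2 | apply D4.ex3
      | apply D4.all0 | apply D4.all1 | apply D4.all2 | apply D4.all3 | (apply D4.allF; intro _)
      | (apply D4.exF; intro _) | apply D4.const
  obtain ⟨ψ, hψ⟩ := hl
  obtain ⟨φ, hφ⟩ := h
  refine ⟨.and ψ φ, Set.ext fun N => and_congr_right fun hN => ⟨?_, ?_⟩⟩
  · rintro ⟨I, hI⟩
    obtain ⟨h1, h2, h3⟩ := (hψ ⟨N, I⟩ trivial fun _ => ⟨0, hN⟩).1 (hI _).1
    obtain ⟨e, he⟩ := exists_sort (fun x y => I 0 [x, y]) h1 h2 h3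
    have ho : OrdS ⟨N, fun r l => I r (l.map e)⟩ := he
    refine ⟨_, ho, (hφ _ ho fun _ => ⟨0, hN⟩).1 ?_⟩
    exact (sat_pull e e.surjective (fun _ _ _ h => e.injective h) I φ _).2 (hI _).2
  · rintro ⟨I, ho, hQ⟩
    refine ⟨I, fun v => ⟨(hψ ⟨N, I⟩ trivial v).2 ?_, (hφ _ ho v).2 hQ⟩⟩
    simp only [show ∀ x y, I 0 [x, y] ↔ x < y from ho]
    exact ⟨fun x => lt_irrefl x, fun x y z => lt_trans, lt_trichotomy⟩

theorem d_lt : D2 K OrdS fun _ x y => x < y := (D2.rel 0).congr fun _ hs => hs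

theorem d_le (hK : 4 ≤ K) (hlt : D2 K H fun _ x y => x < y) : D2 K H fun _ x y => x ≤ y := by
  have : D2 K H fun _ x y => ¬y < x := by
    apply D4.to2 hK
    with_reducible repeat' first
      | exact sel0 | exact sel1 | exact sel2 | exact sel3 | apply D4.at2 hlt | apply D4.rel1
      | apply D4.rel2 | apply D4.rel3 | apply D4.eq | apply D4.ne | apply D4.not | apply D4.and
      | apply D4.or | apply D4.iff | apply D4.imp | apply D4.ex0 | apply D4.ex1 | apply D4.ex2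
      | apply D4.ex3 | apply D4.all0 | apply D4.all1 | apply D4.all2 | apply D4.all3
      | (apply D4.allF; intro _) | (apply D4.exF; intro _) | apply D4.const
  exact this.congr fun _ _ _ _ => not_lt

theorem d_succ (hK : 4 ≤ K) (hlt : D2 K H fun _ x y => x < y) :
    D2 K H fun _ x y => x.1 + 1 = y.1 := by
  have : D2 K H fun _ x y => x < y ∧ ∀ z, ¬(x < z ∧ z < y) := by
    apply D4.to2 hK
    with_reducible repeat' first
      | exact sel0 | exact sel1 | exact sel2 | exact sel3 | apply D4.at2 hlt | apply D4.rel1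
      | apply D4.rel2 | apply D4.rel3 | apply D4.eq | apply D4.ne | apply D4.not | apply D4.and
      | apply D4.or | apply D4.iff | apply D4.imp | apply D4.ex0 | apply D4.ex1 | apply D4.ex2
      | apply D4.ex3 | apply D4.all0 | apply D4.all1 | apply D4.all2 | apply D4.all3
      | (apply D4.allF; intro _) | (apply D4.exF; intro _) | apply D4.const
  refine this.congr fun s _ x y => ⟨fun ⟨h1, h2⟩ => ?_, fun h => ⟨?_, fun z => ?_⟩⟩
  · have := h2 ⟨x.1 + 1, by have := y.2; have : x.1 < y.1 := h1; omega⟩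
    simp only [Fin.lt_def] at this h1; omega
  · simp only [Fin.lt_def]; omega
  · simp only [Fin.lt_def]; omega

theorem d_cst (hK : 4 ≤ K) (hlt : D2 K H fun _ x y => x < y) (r : ℕ) :
    D1 K H fun _ x => x.1 = r := by
  have hs := d_succ hK hlt
  induction r with
  | zero =>
    have : D1 K H fun _ x => ∀ y, ¬y < x := by
      apply D4.to1 hK
      with_reducible repeat' first
        | exact sel0 | exact sel1 | exact sel2 | exact sel3 | apply D4.at2 hlt | apply D4.rel1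
        | apply D4.rel2 | apply D4.rel3 | apply D4.eq | apply D4.ne | apply D4.not | apply D4.and
        | apply D4.or | apply D4.iff | apply D4.imp | apply D4.ex0 | apply D4.ex1 | apply D4.ex2
        | apply D4.ex3 | apply D4.all0 | apply D4.all1 | apply D4.all2 | apply D4.all3
        | (apply D4.allF; intro _) | (apply D4.exF; intro _) | apply D4.const
    refine this.congr fun s _ x => ⟨fun h => ?_, fun h y => ?_⟩
    · have := h ⟨0, x.pos⟩
      simp only [Fin.lt_def] at this; omega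
    · simp only [Fin.lt_def]; omega
  | succ r ih =>
    have : D1 K H fun s x => ∃ y : Fin s.N, y.1 = r ∧ y.1 + 1 = x.1 := by
      apply D4.to1 hK
      with_reducible repeat' first
        | exact sel0 | exact sel1 | exact sel2 | exact sel3 | apply D4.at2 hs | apply D4.at1 ih
        | apply D4.rel1 | apply D4.rel2 | apply D4.rel3 | apply D4.eq | apply D4.ne
        | apply D4.not | apply D4.and | apply D4.or | apply D4.iff | apply D4.imp | apply D4.ex0
        | apply D4.ex1 | apply D4.ex2 | apply D4.ex3 | apply D4.all0 | apply D4.all1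
        | apply D4.all2 | apply D4.all3 | (apply D4.allF; intro _) | (apply D4.exF; intro _)
        | apply D4.const
    refine this.congr fun s _ x => ⟨fun ⟨y, h1, h2⟩ => by omega, fun h => ?_⟩
    exact ⟨⟨r, by have := x.2; omega⟩, rfl, h.symm⟩

theorem lt_of_bit {x i : ℕ} (h : x.testBit i = true) : i < x :=
  lt_of_lt_of_le Nat.lt_two_pow_self (Nat.ge_two_pow_of_testBit h)

theorem bit_succ (i : ℕ) : ∀ x : ℕ, (x + 1).testBit i = true ↔
    (x.testBit i = true ↔ ¬∀ i' < i, x.testBit i' = true) := by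
  induction i with
  | zero => intro x; simp [Nat.testBit_zero]; omega
  | succ i ih =>
    intro x
    rw [Nat.forall_lt_succ_left]
    simp only [Nat.testBit_succ]
    rcases Nat.mod_two_eq_zero_or_one x with h | h
    · rw [show (x + 1) / 2 = x / 2 by omega]
      simp [Nat.testBit_zero, h]
    · rw [show (x + 1) / 2 = x / 2 + 1 by omega, ih]
      simp [Nat.testBit_zero, h]

def BitS (s : Str) : Prop := ∀ x y, s.I 1 [x, y] ↔ x.1.testBit y.1 = true

theorem d_bitS (hK : 4 ≤ K) (hlt : D2 K H fun _ x y => x < y) : D0 K H BitS := by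
  have hs := d_succ hK hlt
  have : D0 K H fun s => ∀ x i, s.I 1 [x, i] ↔ ∃ y : Fin s.N, y.1 + 1 = x.1 ∧
      (s.I 1 [y, i] ↔ ¬∀ i', i' < i → s.I 1 [y, i']) := by
    apply D4.to0 hK
    with_reducible repeat' first
      | exact sel0 | exact sel1 | exact sel2 | exact sel3 | apply D4.at2 hlt | apply D4.at2 hs
      | apply D4.rel1 | apply D4.rel2 | apply D4.rel3 | apply D4.eq | apply D4.ne | apply D4.not
      | apply D4.and | apply D4.or | apply D4.iff | apply D4.imp | apply D4.ex0 | apply D4.ex1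
      | apply D4.ex2 | apply D4.ex3 | apply D4.all0 | apply D4.all1 | apply D4.all2
      | apply D4.all3 | (apply D4.allF; intro _) | (apply D4.exF; intro _) | apply D4.const
  have key : ∀ (N : ℕ) (x i : Fin N), x.1.testBit i.1 = true ↔ ∃ y : Fin N, y.1 + 1 = x.1 ∧
      (y.1.testBit i.1 = true ↔ ¬∀ i' : Fin N, i' < i → y.1.testBit i'.1 = true) := by
    intro N x i
    have e : ∀ y : ℕ, (∀ i' : Fin N, i' < i → y.testBit i'.1 = true) ↔
        ∀ i' < i.1, y.testBit i' = true :=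
      fun y => ⟨fun h i' hi => h ⟨i', hi.trans i.2⟩ hi, fun h i' hi => h _ hi⟩
    simp only [e]
    obtain ⟨x, hx⟩ := x
    cases x with
    | zero => simp
    | succ x =>
      rw [bit_succ]
      exact ⟨fun h => ⟨⟨x, by omega⟩, rfl, h⟩, fun ⟨y, h1, h2⟩ => by
        rwa [show y.1 = x by simpa using h1] at h2⟩
  refine this.congr fun s _ => ⟨fun h => ?_, fun h x i => ?_⟩
  · have : ∀ n (x i : Fin s.N), x.1 = n → (s.I 1 [x, i] ↔ x.1.testBit i.1 = true) := by
      intro n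
      induction n using Nat.strong_induction_on with
      | _ n ih =>
        intro x i hx
        rw [h, key]
        refine exists_congr fun y => and_congr_right fun hy => ?_
        simp only [fun i => ih y.1 (by omega) y i rfl]
    exact fun x i => this _ x i rfl
  · simp only [show ∀ x y, s.I 1 [x, y] ↔ x.1.testBit y.1 = true from h]
    exact key _ x i

theorem d_pw (hK : 4 ≤ K) (hbit : D2 K H fun _ x y => x.1.testBit y.1 = true) :
    D2 K H fun _ x y => 2 ^ x.1 = y.1 := by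
  have : D2 K H fun s x y => ∀ i : Fin s.N, y.1.testBit i.1 = true ↔ i = x := by
    apply D4.to2 hK
    with_reducible repeat' first
      | exact sel0 | exact sel1 | exact sel2 | exact sel3 | apply D4.at2 hbit | apply D4.rel1
      | apply D4.rel2 | apply D4.rel3 | apply D4.eq | apply D4.ne | apply D4.not | apply D4.and
      | apply D4.or | apply D4.iff | apply D4.imp | apply D4.ex0 | apply D4.ex1 | apply D4.ex2
      | apply D4.ex3 | apply D4.all0 | apply D4.all1 | apply D4.all2 | apply D4.all3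
      | (apply D4.allF; intro _) | (apply D4.exF; intro _) | apply D4.const
  refine this.congr fun s _ x y => ⟨fun h => Nat.eq_of_testBit_eq fun i => ?_, fun h i => ?_⟩
  · rw [Nat.testBit_two_pow, Bool.eq_iff_iff, decide_eq_true_iff]
    refine ⟨fun e => e ▸ (h x).2 rfl, fun hb => ?_⟩
    have := (h ⟨i, (lt_of_bit hb).trans y.2⟩).1 hb
    rw [← this]
  · rw [← h, Nat.testBit_two_pow, decide_eq_true_iff, Fin.ext_iff, eq_comm]

/-- anchors -/
def anc : ℕ → ℕ
  | 0 => 0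
  | j + 1 => 2 ^ 2 ^ anc j

theorem anc_mono : StrictMono anc := strictMono_nat_of_lt_succ fun _ =>
  Nat.lt_two_pow_self.trans Nat.lt_two_pow_self

theorem le_anc (j : ℕ) : j ≤ anc j := anc_mono.le_apply

def AncS (s : Str) : Prop := ∀ x y, s.I 2 [x, y] ↔ x.1 = anc y.1

theorem d_ancS (hK : 4 ≤ K) (hlt : D2 K H fun _ x y => x < y)
    (hbit : D2 K H fun _ x y => x.1.testBit y.1 = true) : D0 K H AncS := by
  have hs := d_succ hK hlt
  have hp := d_pw hK hbit
  have h0 := d_cst hK hlt 0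
  have : D0 K H fun s => ∀ a j, s.I 2 [a, j] ↔ (a.1 = 0 ∧ j.1 = 0) ∨ ∃ j' : Fin s.N,
      j'.1 + 1 = j.1 ∧ ∃ a' : Fin s.N, s.I 2 [a', j'] ∧
        ∃ t : Fin s.N, 2 ^ a'.1 = t.1 ∧ 2 ^ t.1 = a.1 := by
    apply D4.to0 hK
    with_reducible repeat' first
      | exact sel0 | exact sel1 | exact sel2 | exact sel3 | apply D4.at2 hs | apply D4.at2 hp
      | apply D4.at1 h0 | apply D4.rel1 | apply D4.rel2 | apply D4.rel3 | apply D4.eq
      | apply D4.ne | apply D4.not | apply D4.and | apply D4.or | apply D4.iff | apply D4.imp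
      | apply D4.ex0 | apply D4.ex1 | apply D4.ex2 | apply D4.ex3 | apply D4.all0 | apply D4.all1
      | apply D4.all2 | apply D4.all3 | (apply D4.allF; intro _) | (apply D4.exF; intro _)
      | apply D4.const
  have key : ∀ (N : ℕ) (a j : Fin N), a.1 = anc j.1 ↔ (a.1 = 0 ∧ j.1 = 0) ∨ ∃ j' : Fin N,
      j'.1 + 1 = j.1 ∧ ∃ a' : Fin N, a'.1 = anc j'.1 ∧
        ∃ t : Fin N, 2 ^ a'.1 = t.1 ∧ 2 ^ t.1 = a.1 := by
    intro N a j
    obtain ⟨j, hj⟩ := j
    cases j with
    | zero => simp [anc]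
    | succ j =>
      refine ⟨fun h => Or.inr ?_, ?_⟩
      · have h' : a.1 = 2 ^ 2 ^ anc j := h
        have h1 : 2 ^ anc j < N := Nat.lt_two_pow_self.trans (h' ▸ a.2)
        exact ⟨⟨j, by omega⟩, rfl, ⟨anc j, Nat.lt_two_pow_self.trans h1⟩, rfl, ⟨_, h1⟩, rfl, h'.symm⟩
      · rintro (h | ⟨j', h1, a', h2, t, h3, h4⟩)
        · simp at h
        · rw [← h4, ← h3, h2, show j'.1 = j by simpa using h1]; rfl
  refine this.congr fun s _ => ⟨fun h => ?_, fun h x i => ?_⟩
  · have : ∀ n (a j : Fin s.N), j.1 = n → (s.I 2 [a, j] ↔ a.1 = anc j.1) := by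
      intro n
      induction n using Nat.strong_induction_on with
      | _ n ih =>
        intro a j hj
        rw [h, key]
        refine or_congr_right (exists_congr fun y => and_congr_right fun hy => ?_)
        simp only [fun a => ih y.1 (by omega) a y rfl]
    exact fun x i => this _ x i rfl
  · simp only [show ∀ x y, s.I 2 [x, y] ↔ x.1 = anc y.1 from h]
    exact key _ x i

/-- the stage to which a size belongs -/
def cur (N : ℕ) : ℕ := Nat.findGreatest (fun j => anc j + 1 < N) N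

theorem cur_spec {N : ℕ} (h : 2 ≤ N) : anc (cur N) + 1 < N :=
  Nat.findGreatest_spec (P := fun j => anc j + 1 < N) (Nat.zero_le N) h

theorem le_cur {N j : ℕ} (h : anc j + 1 < N) : j ≤ cur N :=
  Nat.le_findGreatest (by have := le_anc j; omega) h

theorem cur_eq {N j : ℕ} (h : anc j + 1 < N) (h' : N ≤ anc (j + 1) + 1) : cur N = j := by
  have h1 := le_cur h
  have h2 := cur_spec (N := N) (by omega)
  have : cur N < j + 1 := anc_mono.lt_iff_lt.1 (by omega)
  omega

/-- standard interpretation of the first three symbols -/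
def Std (s : Str) : Prop := ((OrdS s ∧ BitS s) ∧ AncS s) ∧ 2 ≤ s.N

theorem spec_of_std (hK : 4 ≤ K) {Q : Str → Prop} (h : D0 K Std Q) :
    {N | ∃ I, Std ⟨N, I⟩ ∧ Q ⟨N, I⟩} ∈ Spec K := by
  have hlt : D2 K (fun s => (OrdS s ∧ BitS s) ∧ AncS s) fun _ x y => x < y :=
    d_lt.mono fun _ h => h.1.1
  have h2 : D0 K (fun s => (OrdS s ∧ BitS s) ∧ AncS s) fun s => ∃ x y : Fin s.N, x < y := by
    apply D4.to0 hK
    with_reducible repeat' first
      | exact sel0 | exact sel1 | exact sel2 | exact sel3 | apply D4.at2 hlt | apply D4.rel1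
      | apply D4.rel2 | apply D4.rel3 | apply D4.eq | apply D4.ne | apply D4.not | apply D4.and
      | apply D4.or | apply D4.iff | apply D4.imp | apply D4.ex0 | apply D4.ex1 | apply D4.ex2
      | apply D4.ex3 | apply D4.all0 | apply D4.all1 | apply D4.all2 | apply D4.all3
      | (apply D4.allF; intro _) | (apply D4.exF; intro _) | apply D4.const
  have h3 : D0 K (fun s => (OrdS s ∧ BitS s) ∧ AncS s) fun s => 2 ≤ s.N :=
    h2.congr fun s _ => ⟨fun ⟨x, y, h⟩ => by have := y.2; have : x.1 < y.1 := h; omega,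
      fun h => ⟨⟨0, by omega⟩, ⟨1, by omega⟩, Nat.zero_lt_one⟩⟩
  have := spec_of_ord hK (Df.cut (d_bitS hK d_lt) (Df.cut (d_ancS hK (d_lt.mono fun _ h => h.1)
    ((D2.rel 1).congr fun _ h => h.2)) (Df.cut h3 h)))
  convert this using 1
  ext N
  exact ⟨fun ⟨I, h1, h2⟩ => ⟨lt_of_lt_of_le two_pos h1.2, I, h1.1.1.1, h1.1.1.2, h1.1.2, h1.2, h2⟩,
    fun ⟨_, I, h1, h2, h3, h4, h5⟩ => ⟨I, ⟨⟨⟨h1, h2⟩, h3⟩, h4⟩, h5⟩⟩

theorem s_lt : D2 K Std fun _ x y => x < y := d_lt.mono fun _ h => h.1.1.1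
theorem s_bit : D2 K Std fun _ x y => x.1.testBit y.1 = true := (D2.rel 1).congr fun _ h => h.1.1.2
theorem s_anc : D2 K Std fun _ x y => x.1 = anc y.1 := (D2.rel 2).congr fun _ h => h.1.2

theorem s_cur (hK : 4 ≤ K) : D1 K Std fun s x => x.1 = cur s.N := by
  have h1 : D1 K Std fun s j => ∃ a : Fin s.N, a.1 = anc j.1 ∧ ∃ z, a < z := by
    apply D4.to1 hK
    with_reducible repeat' first
      | exact sel0 | exact sel1 | exact sel2 | exact sel3 | apply D4.at2 s_lt
      | apply D4.at2 s_anc | apply D4.rel1 | apply D4.rel2 | apply D4.rel3 | apply D4.eq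
      | apply D4.ne | apply D4.not | apply D4.and | apply D4.or | apply D4.iff | apply D4.imp
      | apply D4.ex0 | apply D4.ex1 | apply D4.ex2 | apply D4.ex3 | apply D4.all0 | apply D4.all1
      | apply D4.all2 | apply D4.all3 | (apply D4.allF; intro _) | (apply D4.exF; intro _)
      | apply D4.const
  have h2 : D1 K Std fun s j => anc j.1 + 1 < s.N :=
    h1.congr fun s _ j => ⟨fun ⟨a, h1, z, h2⟩ => by have := z.2; have : a.1 < z.1 := h2; omega,
      fun h => ⟨⟨anc j.1, by omega⟩, rfl, ⟨_, h⟩, Nat.lt_succ_self _⟩⟩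
  have h3 : D1 K Std fun s j => anc j.1 + 1 < s.N ∧ ∀ y : Fin s.N, anc y.1 + 1 < s.N → ¬j < y := by
    apply D4.to1 hK
    with_reducible repeat' first
      | exact sel0 | exact sel1 | exact sel2 | exact sel3 | apply D4.at2 s_lt | apply D4.at1 h2
      | apply D4.rel1 | apply D4.rel2 | apply D4.rel3 | apply D4.eq | apply D4.ne | apply D4.not
      | apply D4.and | apply D4.or | apply D4.iff | apply D4.imp | apply D4.ex0 | apply D4.ex1
      | apply D4.ex2 | apply D4.ex3 | apply D4.all0 | apply D4.all1 | apply D4.all2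
      | apply D4.all3 | (apply D4.allF; intro _) | (apply D4.exF; intro _) | apply D4.const
  refine h3.congr fun s hs j => ⟨fun ⟨h1, h2⟩ => ?_, fun h => ⟨h ▸ cur_spec hs.2, fun y hy => ?_⟩⟩
  · have h4 := cur_spec hs.2
    have h5 := le_anc (cur s.N)
    have := h2 ⟨cur s.N, by omega⟩ h4
    have := le_cur h1
    simp only [Fin.lt_def] at *; omega
  · have := le_cur hy
    simp only [Fin.lt_def]; omega

theorem s_curA (hK : 4 ≤ K) : D1 K Std fun s x => x.1 = anc (cur s.N) := by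
  have hc := s_cur hK
  have h1 : D1 K Std fun s a => ∃ j : Fin s.N, j.1 = cur s.N ∧ a.1 = anc j.1 := by
    apply D4.to1 hK
    with_reducible repeat' first
      | exact sel0 | exact sel1 | exact sel2 | exact sel3 | apply D4.at1 hc | apply D4.at2 s_anc
      | apply D4.rel1 | apply D4.rel2 | apply D4.rel3 | apply D4.eq | apply D4.ne | apply D4.not
      | apply D4.and | apply D4.or | apply D4.iff | apply D4.imp | apply D4.ex0 | apply D4.ex1
      | apply D4.ex2 | apply D4.ex3 | apply D4.all0 | apply D4.all1 | apply D4.all2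
      | apply D4.all3 | (apply D4.allF; intro _) | (apply D4.exF; intro _) | apply D4.const
  refine h1.congr fun s hs a => ⟨fun ⟨j, h1, h2⟩ => h1 ▸ h2, fun h => ?_⟩
  have h4 := cur_spec hs.2
  have h5 := le_anc (cur s.N)
  exact ⟨⟨cur s.N, by omega⟩, rfl, h⟩

theorem s_sm (hK : 4 ≤ K) : D1 K Std fun s x => x.1 ≤ anc (cur s.N) := by
  have hc := s_curA hK
  have h1 : D1 K Std fun s x => ∃ a : Fin s.N, a.1 = anc (cur s.N) ∧ ¬a < x := by
    apply D4.to1 hK
    with_reducible repeat' first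
      | exact sel0 | exact sel1 | exact sel2 | exact sel3 | apply D4.at1 hc | apply D4.at2 s_lt
      | apply D4.rel1 | apply D4.rel2 | apply D4.rel3 | apply D4.eq | apply D4.ne | apply D4.not
      | apply D4.and | apply D4.or | apply D4.iff | apply D4.imp | apply D4.ex0 | apply D4.ex1
      | apply D4.ex2 | apply D4.ex3 | apply D4.all0 | apply D4.all1 | apply D4.all2
      | apply D4.all3 | (apply D4.allF; intro _) | (apply D4.exF; intro _) | apply D4.const
  refine h1.congr fun s hs x => ⟨fun ⟨a, h1, h2⟩ => ?_, fun h => ?_⟩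
  · simp only [Fin.lt_def] at h2; omega
  · have h4 := cur_spec hs.2
    exact ⟨⟨anc (cur s.N), by omega⟩, rfl, by simp only [Fin.lt_def]; omega⟩

theorem s_cd (hK : 4 ≤ K) : D1 K Std fun s x => x.1 < 2 ^ anc (cur s.N) := by
  have hc := s_curA hK
  have hp := d_pw hK (s_bit (K := K))
  have h1 : D1 K Std fun s x => ∀ a t : Fin s.N, a.1 = anc (cur s.N) → 2 ^ a.1 = t.1 → x < t := by
    apply D4.to1 hK
    with_reducible repeat' first
      | exact sel0 | exact sel1 | exact sel2 | exact sel3 | apply D4.at1 hc | apply D4.at2 s_lt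
      | apply D4.at2 hp | apply D4.rel1 | apply D4.rel2 | apply D4.rel3 | apply D4.eq
      | apply D4.ne | apply D4.not | apply D4.and | apply D4.or | apply D4.iff | apply D4.imp
      | apply D4.ex0 | apply D4.ex1 | apply D4.ex2 | apply D4.ex3 | apply D4.all0 | apply D4.all1
      | apply D4.all2 | apply D4.all3 | (apply D4.allF; intro _) | (apply D4.exF; intro _)
      | apply D4.const
  refine h1.congr fun s hs x => ⟨fun h => ?_, fun h a t h1 h2 => ?_⟩
  · have h4 := cur_spec hs.2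
    by_contra hx
    have := x.2
    exact hx (h ⟨anc (cur s.N), by omega⟩ ⟨2 ^ anc (cur s.N), by omega⟩ rfl rfl)
  · rw [Fin.lt_def, ← h2, h1]; exact h

theorem s_last (hK : 4 ≤ K) : D0 K Std fun s => s.N = anc (cur s.N + 1) + 1 := by
  have h1 : D0 K Std fun s => ∃ a j : Fin s.N, a.1 = anc j.1 ∧ ∀ z, ¬a < z := by
    apply D4.to0 hK
    with_reducible repeat' first
      | exact sel0 | exact sel1 | exact sel2 | exact sel3 | apply D4.at2 s_lt
      | apply D4.at2 s_anc | apply D4.rel1 | apply D4.rel2 | apply D4.rel3 | apply D4.eq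
      | apply D4.ne | apply D4.not | apply D4.and | apply D4.or | apply D4.iff | apply D4.imp
      | apply D4.ex0 | apply D4.ex1 | apply D4.ex2 | apply D4.ex3 | apply D4.all0 | apply D4.all1
      | apply D4.all2 | apply D4.all3 | (apply D4.allF; intro _) | (apply D4.exF; intro _)
      | apply D4.const
  refine h1.congr fun s hs => ⟨fun ⟨a, j, h1, h2⟩ => ?_, fun h => ?_⟩
  · have h3 := h2 ⟨s.N - 1, by have := hs.2; omega⟩
    have h4 := cur_spec hs.2
    have h5 := a.2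
    simp only [Fin.lt_def] at h3
    have h6 : cur s.N < j.1 := anc_mono.lt_iff_lt.1 (by omega)
    have h7 : ¬anc (cur s.N + 1) + 1 < s.N := fun h => by have := le_cur h; omega
    have := anc_mono.monotone (show cur s.N + 1 ≤ j.1 from h6)
    omega
  · have := le_anc (cur s.N + 1)
    refine ⟨⟨anc (cur s.N + 1), by omega⟩, ⟨cur s.N + 1, by omega⟩, rfl, fun z => ?_⟩
    have := z.2
    simp only [Fin.lt_def]; omega

/-- the tables coded by the number `j` -/
def tab (c j r x y : ℕ) : Prop := c < x ∧ x < y ∧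
  ∃ e, j.testBit e = true ∧ e.testBit r = true ∧ e.testBit x = true ∧ e.testBit y = true

theorem s_tab (hK : 4 ≤ K) (c r : ℕ) : D2 K Std fun s x y => tab c (cur s.N) r x.1 y.1 := by
  have hc := s_cur hK
  have h0 := d_cst hK (s_lt (K := K)) c
  have h1 := d_cst hK (s_lt (K := K)) r
  have h2 : D2 K Std fun s x y => (∃ z : Fin s.N, z.1 = c ∧ z < x) ∧ x < y ∧ ∃ e : Fin s.N,
      (∃ j : Fin s.N, j.1 = cur s.N ∧ j.1.testBit e.1 = true) ∧
      (∃ z : Fin s.N, z.1 = r ∧ e.1.testBit z.1 = true) ∧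
      e.1.testBit x.1 = true ∧ e.1.testBit y.1 = true := by
    apply D4.to2 hK
    with_reducible repeat' first
      | exact sel0 | exact sel1 | exact sel2 | exact sel3 | apply D4.at1 hc | apply D4.at1 h0
      | apply D4.at1 h1 | apply D4.at2 s_lt | apply D4.at2 s_bit | apply D4.rel1 | apply D4.rel2
      | apply D4.rel3 | apply D4.eq | apply D4.ne | apply D4.not | apply D4.and | apply D4.or
      | apply D4.iff | apply D4.imp | apply D4.ex0 | apply D4.ex1 | apply D4.ex2 | apply D4.ex3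
      | apply D4.all0 | apply D4.all1 | apply D4.all2 | apply D4.all3 | (apply D4.allF; intro _)
      | (apply D4.exF; intro _) | apply D4.const
  refine h2.congr fun s hs x y => and_congr ?_ (and_congr Iff.rfl ?_)
  · exact ⟨fun ⟨z, h1, h2⟩ => h1 ▸ h2, fun h => ⟨⟨c, h.trans x.2⟩, rfl, h⟩⟩
  · refine ⟨fun ⟨e, ⟨j, h1, h2⟩, ⟨z, h3, h4⟩, h5⟩ => ⟨e, h1 ▸ h2, h3 ▸ h4, h5⟩,
      fun ⟨e, h1, h2, h3⟩ => ?_⟩
    have h4 := cur_spec hs.2
    have h5 := le_anc (cur s.N)
    have h6 := lt_of_bit h1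
    have h7 := lt_of_bit h2
    exact ⟨⟨e, by omega⟩, ⟨⟨cur s.N, by omega⟩, rfl, h1⟩, ⟨⟨r, by omega⟩, rfl, h2⟩, h3⟩

theorem exists_bits (T : Finset ℕ) (L : ℕ) (h : ∀ e ∈ T, e < L) :
    ∃ j < 2 ^ L, ∀ e, j.testBit e = true ↔ e ∈ T := by
  induction T using Finset.induction_on with
  | empty => exact ⟨0, by positivity, by simp⟩
  | insert a T _ ih =>
    obtain ⟨j, h1, h2⟩ := ih fun e he => h e (Finset.mem_insert_of_mem he)
    refine ⟨2 ^ a ||| j, Nat.or_lt_two_pow (Nat.pow_lt_pow_right one_lt_two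
      (h a (Finset.mem_insert_self _ _))) h1, fun e => ?_⟩
    rw [Nat.testBit_or, Bool.or_eq_true, h2, Nat.testBit_two_pow, decide_eq_true_iff,
      Finset.mem_insert, eq_comm]

/-- every finite table has arbitrarily large codes -/
theorem exists_code (c B J : ℕ) (T : ℕ → ℕ → ℕ → Prop)
    (hT : ∀ r x y, T r x y → r ≤ c ∧ c < x ∧ x < y ∧ y < B) :
    ∃ j, J ≤ j ∧ ∀ r ≤ c, ∀ x y, tab c j r x y ↔ T r x y := by
  classical
  let E : ℕ × ℕ × ℕ → ℕ := fun t => 2 ^ t.1 ||| 2 ^ t.2.1 ||| 2 ^ t.2.2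
  have hE : ∀ t i, (E t).testBit i = true ↔ i = t.1 ∨ i = t.2.1 ∨ i = t.2.2 := by
    intro t i
    simp only [E, Nat.testBit_or, Bool.or_eq_true, Nat.testBit_two_pow, decide_eq_true_iff]
    omega
  let F := ((Finset.range B ×ˢ Finset.range B ×ˢ Finset.range B).filter
    fun t => T t.1 t.2.1 t.2.2).image E
  obtain ⟨j, -, hj⟩ := exists_bits (insert (2 ^ (J + c + 1)) F) _ fun e he =>
    Nat.lt_succ_of_le (Finset.le_sup (f := id) he)
  refine ⟨j, ?_, fun r hr x y => ⟨?_, fun h => ?_⟩⟩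
  · have := lt_of_bit ((hj _).2 (Finset.mem_insert_self _ _))
    have := Nat.lt_two_pow_self (n := J + c + 1)
    omega
  · rintro ⟨h1, h2, e, h3, h4, h5, h6⟩
    rcases Finset.mem_insert.1 ((hj e).1 h3) with rfl | he
    · rw [Nat.testBit_two_pow, decide_eq_true_iff] at h4; omega
    · obtain ⟨t, ht, rfl⟩ := Finset.mem_image.1 he
      have ht := (Finset.mem_filter.1 ht).2
      have := hT _ _ _ ht
      rw [hE] at h4 h5 h6
      rwa [show r = t.1 by omega, show x = t.2.1 by omega, show y = t.2.2 by omega]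
  · have := hT _ _ _ h
    refine ⟨this.2.1, this.2.2.1, E (r, x, y), (hj _).2 (Finset.mem_insert_of_mem
      (Finset.mem_image.2 ⟨(r, x, y), Finset.mem_filter.2 ⟨?_, h⟩, rfl⟩)), ?_, ?_, ?_⟩
    · simp only [Finset.mem_product, Finset.mem_range]; omega
    all_goals simp [hE]

/-- names of the remaining symbols -/
def sy (t p : ℕ) : ℕ := Nat.pair t p + 3

theorem realize {N r : ℕ} (hN : 2 ≤ N) (G : ℕ → Fin r → List (Fin N) → Prop) :
    ∃ I, Std ⟨N, I⟩ ∧ ∀ t p, I (sy t p.1) = G t p := by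
  refine ⟨fun n l => match n with
    | 0 => ∃ x y, l = [x, y] ∧ x < y
    | 1 => ∃ x y, l = [x, y] ∧ x.1.testBit y.1 = true
    | 2 => ∃ x y, l = [x, y] ∧ x.1 = anc y.1
    | n + 3 => ∃ p : Fin r, p.1 = n.unpair.2 ∧ G n.unpair.1 p l,
    ⟨⟨⟨fun x y => ?_, fun x y => ?_⟩, fun x y => ?_⟩, hN⟩, fun t p => ?_⟩
  · simp
  · simp
  · simp
  · funext l
    simp [sy, Fin.val_inj]

theorem poly_le_exp (C e : ℕ) : ∃ L0, ∀ L, L0 ≤ L → C * (L + 1) ^ e ≤ 2 ^ L := by
  have h := tendsto_pow_const_div_const_pow_of_one_lt e (r := (2 : ℝ)) one_lt_two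
  have h' := h.eventually (gt_mem_nhds (show (0 : ℝ) < 1 / (2 * C + 1) by positivity))
  obtain ⟨L0, hL⟩ := Filter.eventually_atTop.1 h'
  refine ⟨L0, fun L hL' => ?_⟩
  have := hL (L + 1) (by omega)
  rw [div_lt_div_iff₀ (by positivity) (by positivity), pow_succ] at this
  have h3 : (C : ℝ) * (L + 1) ^ e ≤ 2 ^ L := by
    push_cast at this
    have : (0 : ℝ) ≤ ((L : ℝ) + 1) ^ e := by positivity
    nlinarith
  exact_mod_cast h3

end Pool.Agent.MP_8c2300_lc.h28

end MrgPart1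

-- ======== part 2: formerly Pool.Agent.MP_8c2300_lc.h28.Two
section MrgPart2

/-! Two variables versus three variables, and change of labels. -/

set_option autoImplicit false

namespace Pool.Agent.MP_8c2300_lc.h28

open Function

theorem modG_map {α β γ α' β' γ' : Type} {m n : ℕ} (hn : m + 1 ≤ n)
    {Fc : Fin (m + 1) → α → β → Prop} {Dm : β → γ → Prop} {St : Fin (m + 1) → γ → α → Prop}
    {Fc' : Fin (m + 1) → α' → β' → Prop} {Dm' : β' → γ' → Prop} {St' : Fin (m + 1) → γ' → α' → Prop}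
    (f : α → α') (g : β → β') (h1 : ∀ j σ ρ, Fc j σ ρ → Fc' j (f σ) (g ρ))
    (h2 : ∀ j σ ρ d', Fc j σ ρ → Dm' (g ρ) d' →
      ∃ d, Dm ρ d ∧ ∀ p σ, St p d σ → St' p d' (f σ))
    (h : ModG m Fc Dm St n) : ModG m Fc' Dm' St' n := by
  obtain ⟨S, R, hF, hD⟩ := h
  refine ⟨f ∘ S, g ∘ R, fun b hb j => h1 _ _ _ (hF b hb j), fun c hc d' hd => ?_⟩
  obtain ⟨b0, p0, hb0, rfl⟩ := ext_any hn hc
  obtain ⟨d, hd1, hd2⟩ := h2 _ _ _ d' (hF b0 hb0 p0) hd
  obtain ⟨b, p, hb, e, hs⟩ := hD _ hc d hd1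
  exact ⟨b, p, hb, e, hd2 p _ hs⟩

theorem modG_clone {α β γ : Type} [Finite β] {Fc : Fin 2 → α → β → Prop} {Dm : β → γ → Prop}
    {St : Fin 2 → γ → α → Prop} {n : ℕ} (hn : Nat.card β < n) (h : ModG 1 Fc Dm St n) :
    ModG 1 Fc Dm St (n + 1) := by
  classical
  obtain ⟨S, R, hF, hD⟩ := h
  obtain ⟨x, x', hx, hR⟩ : ∃ x x' : Fin n, x < x' ∧ R (fun _ => x) = R fun _ => x' := by
    by_contra hcon
    have : Injective fun x : Fin n => R fun _ => x := by
      intro x y e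
      rcases lt_trichotomy x y with h | h | h
      · exact absurd ⟨x, y, h, e⟩ hcon
      · exact h
      · exact absurd ⟨y, x, h, e.symm⟩ hcon
    have := Nat.card_le_card_of_injective _ this
    simp at this; omega
  let h : Fin (n + 1) → Fin n := x.predAbove
  have hm : Monotone h := Fin.predAbove_right_monotone x
  have hs : Surjective h := Fin.predAbove_surjective x
  have hcol : ∀ y z : Fin (n + 1), y < z → h y = h z → h y = x := by
    intro y z hyz e
    have hv : ∀ y : Fin (n + 1), (h y).1 = if x.1 < y.1 then y.1 - 1 else y.1 := by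
      intro y
      simp only [h, Fin.predAbove, Fin.lt_def, Fin.val_castSucc]
      split_ifs <;> rfl
    have e' := congrArg Fin.val e
    have hyz' : y.1 < z.1 := hyz
    apply Fin.ext
    rw [hv] at e' ⊢
    rw [hv] at e'
    split_ifs at e' ⊢ <;> omega
  refine ⟨fun b => if StrictMono (h ∘ b) then S (h ∘ b) else S ![x, x'], fun c => R (h ∘ c),
    fun b hb j => ?_, fun c hc d hd => ?_⟩
  · by_cases hb' : StrictMono (h ∘ b)
    · simp only [if_pos hb']; exact hF _ hb' j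
    · simp only [if_neg hb']
      have h01 : b 0 < b 1 := hb (by decide)
      have e : h (b 0) = h (b 1) := by
        by_contra hne
        exact hb' (Fin.strictMono_iff_lt_succ.2 fun i => by
          rw [Subsingleton.elim i 0]; exact lt_of_le_of_ne (hm h01.le) hne)
      have e0 := hcol _ _ h01 e
      have hxx : StrictMono ![x, x'] := Fin.strictMono_iff_lt_succ.2 fun i => by
        rw [Subsingleton.elim i 0]; exact hx
      have := hF _ hxx j
      have e1 : h ∘ b ∘ j.succAbove = fun _ => x := by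
        funext i
        have : ∀ q : Fin 2, h (b q) = x := by
          intro q; fin_cases q
          · exact e0
          · exact e ▸ e0
        exact this _
      have e2 : R (![x, x'] ∘ j.succAbove) = R fun _ => x := by
        fin_cases j
        · rw [hR]; congr 1; funext i; rw [Subsingleton.elim i 0]; rfl
        · congr 1; funext i; rw [Subsingleton.elim i 0]; rfl
      rw [e1, ← e2]; exact this
  · obtain ⟨b, p, hb, e, hst⟩ := hD (h ∘ c) (Subsingleton.strictMono _) d hd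
    obtain ⟨y, hy⟩ := hs (b p)
    have e' : h ∘ (Fin.insertNth p y c : Fin 2 → Fin (n + 1)) = b := by
      funext q
      rcases Fin.eq_self_or_eq_succAbove p q with rfl | ⟨i, rfl⟩
      · simp [hy]
      · simpa using (congrFun e i).symm
    refine ⟨Fin.insertNth p y c, p, fun q r hqr => ?_, ?_, ?_⟩
    · exact hm.reflect_lt (by have := hb hqr; rwa [← e'] at this)
    · funext i; simp
    · simp only [e', if_pos hb]; exact hst

theorem spec_two : Spec 2 ⊂ Spec 3 := by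
  refine ⟨spec_mono 2, fun h => ?_⟩
  obtain ⟨φ, hφ⟩ := h ⟨.and (.ex 1 (.rel 0 [0, 1])) (.and (.not (.rel 0 [0, 0]))
    (.not (.and (.rel 0 [0, 1]) (.and (.rel 0 [1, 2]) (.not (.eq 0 2)))))), rfl⟩
  set B := Nat.card (Ty φ 1) with hB
  have h1 : 2 * B + 3 + 1 ∈ spectrum φ := by
    rw [hφ]
    refine ⟨by omega, fun _ l => ∃ x, l = [x, x.rev], fun v => ⟨⟨(v 0).rev, v 0, by simp⟩, ?_, ?_⟩⟩
    · rintro ⟨x, hx⟩
      simp only [List.map_cons, List.map_nil, List.cons.injEq, and_true] at hx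
      have := congrArg Fin.val (hx.1.symm.trans hx.2)
      rw [Fin.val_rev] at this; omega
    · rintro ⟨⟨x, hx⟩, ⟨y, hy⟩, hne⟩
      simp only [List.map_cons, List.map_nil, List.cons.injEq, and_true] at hx hy
      apply hne
      show v 0 = v 2
      rw [hx.1, hy.2, ← hy.1, hx.2, Fin.rev_rev]
  have h2 := (mod_iff φ (by omega)).1 (modG_clone (by omega) ((mod_iff φ (by omega)).2 h1))
  rw [hφ] at h2
  obtain ⟨-, I, hI⟩ := h2
  have ht : ∀ x, ∃ y, I 0 [x, y] := fun x => by simpa [Sat] using (hI fun _ => x).1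
  choose g hg using ht
  have hne : ∀ x, g x ≠ x := fun x e => by
    have := (hI fun _ => x).2.1
    apply this
    have h' := hg x
    rw [e] at h'
    simpa [Sat] using h'
  have hinv : ∀ x, g (g x) = x := fun x => by
    by_contra hc
    apply (hI ![x, g x, g (g x)]).2.2
    exact ⟨hg x, hg (g x), fun e => hc e.symm⟩
  have := Finset.sum_involution (s := Finset.univ) (f := fun _ : Fin (2 * B + 3 + 1 + 1) => (1 : ZMod 2))
    (fun x _ => g x) (fun _ _ => by decide) (fun x _ _ => hne x) (fun _ _ => Finset.mem_univ _)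
    (fun x _ => hinv x)
  simp only [Finset.sum_const, Finset.card_univ, Fintype.card_fin, nsmul_eq_mul, mul_one] at this
  have := (ZMod.natCast_eq_zero_iff _ _).1 this
  omega

end Pool.Agent.MP_8c2300_lc.h28

end MrgPart2

-- ======== part 3: formerly Pool.Agent.MP_8c2300_lc.h28.SimA
section MrgPart3

/-! Simulation of a labelling problem with small labels, using one variable more than the length of
the tuples. -/

set_option autoImplicit false

namespace Pool.Agent.MP_8c2300_lc.h28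

open Function List

variable {m N : ℕ}

/-- the simulating axioms -/
def SimA (m : ℕ) {N : ℕ} (Fc : Fin (m + 1) → Fin N → Fin N → Prop) (Dm : Fin N → Fin N → Prop)
    (St : Fin (m + 1) → Fin N → Fin N → Prop) (J : ℕ → Fin (m + 1) → List (Fin N) → Prop) : Prop :=
  (∀ c : Fin m → Fin N, ∃ u, J 0 0 (u :: ofFn c)) ∧
  (∀ j t u, ∀ c : Fin m → Fin N, J 1 j (t :: ofFn c) → J 0 0 (u :: ofFn c) → J 2 j [t, u]) ∧
  (∀ b : Fin (m + 1) → Fin N, StrictMono b → ∃ t, ∀ j : Fin (m + 1),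
    J 1 j (t :: ofFn (b ∘ j.succAbove)) ∧ (J 3 j (ofFn b) → J 4 j [b j, t])) ∧
  (∀ w, ∀ c : Fin m → Fin N, StrictMono c → J 8 0 (w :: ofFn c) → ∃ y, ∃ p : Fin (m + 1),
    StrictMono (p.insertNth y c : Fin (m + 1) → Fin N) ∧
      J 3 p (ofFn (p.insertNth y c : Fin (m + 1) → Fin N)) ∧ J 9 p [y, w]) ∧
  (∀ w u, ∀ c : Fin m → Fin N, J 0 0 (u :: ofFn c) → J 10 0 [w, u] → J 8 0 (w :: ofFn c)) ∧
  (∀ j t u σ ρ, J 2 j [t, u] → J 5 0 [t, σ] → J 6 0 [u, ρ] → Fc j σ ρ) ∧
  (∀ t, ∃ σ, J 5 0 [t, σ]) ∧ (∀ u, ∃ ρ, J 6 0 [u, ρ]) ∧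
  (∀ j y t u σ, J 4 j [y, t] → J 2 j [t, u] → J 5 0 [t, σ] → J 7 j [u, y, σ]) ∧
  (∀ u ρ d, J 6 0 [u, ρ] → Dm ρ d → ∃ w, J 10 0 [w, u] ∧ J 11 0 [w, d]) ∧
  (∀ p y w u σ, J 9 p [y, w] → J 10 0 [w, u] → J 7 p [u, y, σ] → ∀ d, J 11 0 [w, d] → St p d σ)

theorem simA_sound {Fc : Fin (m + 1) → Fin N → Fin N → Prop} {Dm : Fin N → Fin N → Prop}
    {St : Fin (m + 1) → Fin N → Fin N → Prop} {J : ℕ → Fin (m + 1) → List (Fin N) → Prop}
    (h : SimA m Fc Dm St J) : ModG m Fc Dm St N := by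
  classical
  obtain ⟨T1, T2, T3, T7, T8, T4, T5, T5', T6, T9, T10⟩ := h
  choose τ hτ using T1
  choose sg hsg using T5
  choose rh hrh using T5'
  choose tt htt using T3
  refine ⟨fun b => if hb : StrictMono b then sg (tt b hb) else b 0, fun c => rh (τ c),
    fun b hb j => ?_, fun c hc d hd => ?_⟩
  · simp only [dif_pos hb]
    exact T4 j _ _ _ _ (T2 j _ _ _ (htt b hb j).1 (hτ _)) (hsg _) (hrh _)
  · obtain ⟨w, hw1, hw2⟩ := T9 _ _ d (hrh _) hd
    obtain ⟨y, p, hb, hM, hK⟩ := T7 w c hc (T8 w _ c (hτ c) hw1)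
    have e : (p.insertNth y c : Fin (m + 1) → Fin N) ∘ p.succAbove = c := by funext i; simp
    refine ⟨_, p, hb, e, ?_⟩
    simp only [dif_pos hb]
    obtain ⟨h1, h2⟩ := htt _ hb p
    rw [e] at h1
    have h3 := h2 hM
    rw [Fin.insertNth_apply_same] at h3
    exact T10 p y w _ _ hK hw1 (T6 p y _ _ _ h3 (T2 p _ _ _ h1 (hτ c)) (hsg _)) d hw2

/-- a small family of functions that realizes all patterns on few points -/
theorem universal {X V : Type} [Nonempty V] {L : ℕ} (hN : N ≤ 2 ^ L) (y : X → Fin N)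
    (g : Fin N → V) : ∃ (q : X × X → Fin (L + 1)) (t : (X × X → Bool) → V),
      ∀ d, t (fun r => (y d).1.testBit (q r).1) = g (y d) := by
  classical
  have : ∀ r : X × X, ∃ i : Fin (L + 1),
      (y r.1).1.testBit i.1 = (y r.2).1.testBit i.1 → y r.1 = y r.2 := by
    intro r
    by_contra hc
    simp only [not_exists, Classical.not_imp] at hc
    apply (hc 0).2
    apply Fin.ext
    apply Nat.eq_of_testBit_eq
    intro i
    by_cases hi : i < L + 1
    · exact (hc ⟨i, hi⟩).1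
    · have h2 : 2 ^ L ≤ 2 ^ i := Nat.pow_le_pow_right two_pos (by omega)
      rw [Nat.testBit_lt_two_pow (lt_of_lt_of_le (y r.1).2 (hN.trans h2)),
        Nat.testBit_lt_two_pow (lt_of_lt_of_le (y r.2).2 (hN.trans h2))]
  choose q hq using this
  refine ⟨q, fun β => if h : ∃ d, (fun r => (y d).1.testBit (q r).1) = β then g (y h.choose)
    else Classical.arbitrary V, fun d => ?_⟩
  have h : ∃ d', (fun r => (y d').1.testBit (q r).1) = fun r => (y d).1.testBit (q r).1 := ⟨d, rfl⟩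
  simp only [dif_pos h]
  rw [hq (h.choose, d) (congrFun h.choose_spec _)]

theorem exists_dec (Y : Type) [Finite Y] [Nonempty Y] (h : Nat.card Y ≤ N) :
    ∃ f : Fin N → Y, Surjective f := by
  have := Fintype.ofFinite Y
  obtain ⟨e⟩ : Nonempty (Y ↪ Fin N) := Function.Embedding.nonempty_of_card_le (by simpa using h)
  exact ⟨invFun e, invFun_surjective e.injective⟩

def enT {A : Type} {r : ℕ} (P : A → (Fin r → A) → Prop) (l : List A) : Prop :=
  ∃ u c, l = u :: ofFn c ∧ P u c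

def enB {A : Type} {r : ℕ} (P : (Fin r → A) → Prop) (l : List A) : Prop := ∃ c, l = ofFn c ∧ P c

def en1 {A : Type} (P : A → Prop) (l : List A) : Prop := ∃ x, l = [x] ∧ P x

def en2 {A : Type} (P : A → A → Prop) (l : List A) : Prop := ∃ x y, l = [x, y] ∧ P x y

def en3 {A : Type} (P : A → A → A → Prop) (l : List A) : Prop := ∃ x y z, l = [x, y, z] ∧ P x y z

theorem enT_iff {A : Type} {r : ℕ} (P : A → (Fin r → A) → Prop) (u : A) (c : Fin r → A) :
    enT P (u :: ofFn c) ↔ P u c := by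
  refine ⟨?_, fun h => ⟨u, c, rfl, h⟩⟩
  rintro ⟨u', c', e, h⟩
  obtain ⟨rfl, e'⟩ := List.cons.inj e
  rwa [List.ofFn_injective e']

theorem enB_iff {A : Type} {r : ℕ} (P : (Fin r → A) → Prop) (c : Fin r → A) :
    enB P (ofFn c) ↔ P c := by
  refine ⟨?_, fun h => ⟨c, rfl, h⟩⟩
  rintro ⟨c', e, h⟩
  rwa [List.ofFn_injective e]

theorem en1_iff {A : Type} (P : A → Prop) (x : A) : en1 P [x] ↔ P x := by simp [en1]

theorem en2_iff {A : Type} (P : A → A → Prop) (x y : A) : en2 P [x, y] ↔ P x y := by simp [en2]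

theorem en3_iff {A : Type} (P : A → A → A → Prop) (x y z : A) : en3 P [x, y, z] ↔ P x y z := by
  refine ⟨?_, fun h => ⟨x, y, z, rfl, h⟩⟩
  rintro ⟨x', y', z', e, h⟩
  simp only [List.cons.injEq, and_true] at e
  obtain ⟨rfl, rfl, rfl⟩ := e
  exact h

def pack {Y : Type} (A0 A1 A2 A3 A4 A5 A6 A7 A8 A9 A10 A11 : Y) : ℕ → Y
  | 0 => A0
  | 1 => A1
  | 2 => A2
  | 3 => A3
  | 4 => A4
  | 5 => A5
  | 6 => A6
  | 7 => A7
  | 8 => A8
  | 9 => A9
  | 10 => A10
  | _ + 11 => A11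

/-- codes of faces -/
abbrev UU (m L : ℕ) (X : Type) : Type :=
  X × (X × X → Fin (L + 1)) × ((X × X → Bool) → Fin (m + 1) → X)

theorem simA_complete {Fc : Fin (m + 1) → Fin N → Fin N → Prop} {Dm : Fin N → Fin N → Prop}
    {St : Fin (m + 1) → Fin N → Fin N → Prop} {X : Type} [Finite X] [Nonempty X] (e : X → Fin N)
    (hDm : ∀ ρ d, Dm (e ρ) d → ∃ d', d = e d') {L : ℕ} (hN : N ≤ 2 ^ L)
    (hc : Nat.card (X × (Fin (m + 1) → UU m L X)) ≤ N)
    (h : ModG m (fun j σ ρ => Fc j (e σ) (e ρ)) (fun ρ d => Dm (e ρ) (e d))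
      (fun p d σ => St p (e d) (e σ)) N) : ∃ J, SimA m Fc Dm St J := by
  classical
  obtain ⟨S, R, hF, hD⟩ := h
  obtain ⟨dT, hT⟩ := exists_dec _ hc
  let dW : Fin N → X × UU m L X := fun w => ((dT w).1, (dT w).2 0)
  have hW : Surjective dW := fun x => by
    obtain ⟨w, hw⟩ := hT (x.1, fun _ => x.2)
    exact ⟨w, by simp [dW, hw]⟩
  let dU : Fin N → UU m L X := fun u => (dT u).2 0
  have hU : Surjective dU := fun x => by
    obtain ⟨w, hw⟩ := hT (x.1, fun _ => x)
    exact ⟨w, by simp [dU, hw]⟩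
  let ev : UU m L X → Fin N → Fin (m + 1) → X := fun u y =>
    u.2.2 fun r => y.1.testBit (u.2.1 r).1
  have hτ : ∀ c : Fin m → Fin N, ∃ u : UU m L X, u.1 = R c ∧ ∀ d, StrictMono c →
      Dm (e (R c)) (e d) → ∃ y, ∃ p : Fin (m + 1),
        StrictMono (p.insertNth y c : Fin (m + 1) → Fin N) ∧ ev u y p = S (p.insertNth y c) ∧
          St p (e d) (e (ev u y p)) := by
    intro c
    have : ∀ d, ∃ y, StrictMono c → Dm (e (R c)) (e d) → ∃ p : Fin (m + 1),
        StrictMono (p.insertNth y c : Fin (m + 1) → Fin N) ∧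
          St p (e d) (e (S (p.insertNth y c))) := by
      intro d
      by_cases hd : StrictMono c ∧ Dm (e (R c)) (e d)
      · obtain ⟨b, p, hb, e1, hs⟩ := hD c hd.1 d hd.2
        have e2 : (p.insertNth (b p) c : Fin (m + 1) → Fin N) = b := by
          rw [← e1]; exact Fin.insertNth_self_removeNth p b
        exact ⟨b p, fun _ _ => ⟨p, by rwa [e2], by rwa [e2]⟩⟩
      · exact ⟨e d, fun h1 h2 => absurd ⟨h1, h2⟩ hd⟩
    choose y hy using this
    obtain ⟨q, t, ht⟩ := universal hN y fun y (p : Fin (m + 1)) => S (p.insertNth y c)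
    refine ⟨(R c, q, t), rfl, fun d h1 h2 => ?_⟩
    obtain ⟨p, h3, h4⟩ := hy d h1 h2
    have : ev (R c, q, t) (y d) p = S (p.insertNth (y d) c) := congrFun (ht d) p
    exact ⟨y d, p, h3, this, by rwa [this]⟩
  choose τ hτ1 hτ2 using hτ
  refine ⟨pack (fun _ => enT fun u c => dU u = τ c)
    (fun j => enT fun t c => (dT t).2 j = τ c ∧ Fc j (e (dT t).1) (e (τ c).1))
    (fun j => en2 fun t u => (dT t).2 j = dU u ∧ Fc j (e (dT t).1) (e (dU u).1))
    (fun j => enB fun b : Fin (m + 1) → Fin N => ev (τ (b ∘ j.succAbove)) (b j) j = S b)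
    (fun j => en2 fun y t => ev ((dT t).2 j) y j = (dT t).1)
    (fun _ => en2 fun t σ => σ = e (dT t).1)
    (fun _ => en2 fun u ρ => ρ = e (dU u).1)
    (fun j => en3 fun u y σ => σ = e (ev (dU u) y j))
    (fun _ => enT fun w c => (dW w).2 = τ c ∧ Dm (e (τ c).1) (e (dW w).1))
    (fun p => en2 fun y w => St p (e (dW w).1) (e (ev (dW w).2 y p)))
    (fun _ => en2 fun w u => (dW w).2 = dU u ∧ Dm (e (dU u).1) (e (dW w).1))
    (fun _ => en2 fun w d => d = e (dW w).1), ?_⟩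
  simp only [SimA, pack, enT_iff, enB_iff, en2_iff, en3_iff]
  refine ⟨fun c => hU _, ?_, fun b hb => ?_, ?_, ?_, ?_, fun t => ⟨_, rfl⟩, fun t => ⟨_, rfl⟩,
    ?_, ?_, ?_⟩
  · rintro j t u c h1 h2
    rwa [h2]
  · obtain ⟨t, ht⟩ := hT (S b, fun j => τ (b ∘ j.succAbove))
    refine ⟨t, fun j => ?_⟩
    simp only [ht, true_and, imp_self, and_true, hτ1]
    exact hF b hb j
  · rintro w c hc ⟨h1, h2⟩
    rw [hτ1] at h2
    obtain ⟨y, p, h3, h4, h5⟩ := hτ2 c _ hc h2
    have e1 : (p.insertNth y c : Fin (m + 1) → Fin N) ∘ p.succAbove = c := by funext i; simp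
    refine ⟨y, p, h3, ?_, by rwa [h1]⟩
    rwa [e1, Fin.insertNth_apply_same]
  · rintro w u c h1 h2
    rwa [← h1]
  · rintro j t u σ ρ h1 rfl rfl
    exact h1.2
  · rintro j y t u σ h1 h2 rfl
    rw [← h2.1, h1]
  · rintro u ρ d rfl h
    obtain ⟨d', rfl⟩ := hDm _ _ h
    obtain ⟨w, hw⟩ := hW (d', dU u)
    exact ⟨w, by rw [hw]; exact ⟨rfl, h⟩, by rw [hw]⟩
  · rintro p y w u σ h1 h2 rfl d rfl
    rwa [← h2.1]

theorem card_small (m B : ℕ) : ∃ N0, ∀ N, N0 ≤ N → ∃ L, N ≤ 2 ^ L ∧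
    Nat.card (Fin B × (Fin (m + 1) → UU m L (Fin B))) ≤ N := by
  obtain ⟨L0, h⟩ := poly_le_exp (B * (B * (B ^ (m + 1)) ^ 2 ^ (B * B)) ^ (m + 1) *
    2 ^ (B * B * (m + 1))) (B * B * (m + 1))
  refine ⟨2 ^ L0, fun N hN => ⟨Nat.log 2 N + 1, (Nat.lt_pow_succ_log_self one_lt_two N).le, ?_⟩⟩
  have hN0 : N ≠ 0 := by have : 0 < 2 ^ L0 := by positivity
                         omega
  refine le_trans ?_ ((h (Nat.log 2 N) (Nat.le_log_of_pow_le one_lt_two hN)).trans
    (Nat.pow_log_le_self 2 hN0))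
  simp only [Nat.card_prod, Nat.card_fun, Nat.card_fin, Nat.card_eq_fintype_card (α := Bool),
    Fintype.card_bool]
  generalize Nat.log 2 N = l
  have : (l + 1 + 1) ^ (B * B * (m + 1)) ≤ (2 * (l + 1)) ^ (B * B * (m + 1)) :=
    Nat.pow_le_pow_left (by omega) _
  calc B * (B * ((l + 1 + 1) ^ (B * B) * (B ^ (m + 1)) ^ 2 ^ (B * B))) ^ (m + 1)
      = B * (B * (B ^ (m + 1)) ^ 2 ^ (B * B)) ^ (m + 1) * (l + 1 + 1) ^ (B * B * (m + 1)) := by
        rw [pow_mul (l + 1 + 1) (B * B) (m + 1)]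
        generalize (l + 1 + 1) ^ (B * B) = x
        generalize (B ^ (m + 1)) ^ 2 ^ (B * B) = y
        ring
    _ ≤ B * (B * (B ^ (m + 1)) ^ 2 ^ (B * B)) ^ (m + 1) * (2 * (l + 1)) ^ (B * B * (m + 1)) :=
        Nat.mul_le_mul_left _ this
    _ = _ := by rw [mul_pow 2]; ring

variable {H : Str → Prop}

theorem df_list {K : ℕ} (a : ℕ) {l : ∀ s : Str, (Fin K → Fin s.N) → List (Fin s.N)}
    (l0 : List (Fin K)) (h : ∀ s v, l0.map v = l s v) : Df K H fun s v => s.I a (l s v) :=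
  (Df.rel a l0).congr fun s _ v => by rw [h]

theorem df_sm {K r : ℕ} (hlt : D2 K H fun _ x y => x < y)
    {b : ∀ s : Str, (Fin K → Fin s.N) → Fin r → Fin s.N} (g : Fin r → Fin K)
    (h : ∀ s v, v ∘ g = b s v) : Df K H fun s v => StrictMono (b s v) :=
  (Df.allF fun i => Df.allF fun j => (Df.const (i < j)).imp (hlt (g i) (g j))).congr
    fun s _ v => by rw [← h]; exact ⟨fun h i j => h i j, fun h i j hij => h hij⟩

/-- two single variables and a block of `m` variables -/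
def DT (m : ℕ) (H : Str → Prop)
    (P : ∀ s : Str, Fin s.N → Fin s.N → (Fin m → Fin s.N) → Prop) : Prop :=
  Df (m + 2) H fun s v => P s (v 0) (v 1) fun i => v i.succ.succ

theorem DT.ex0 {P : ∀ s : Str, Fin s.N → Fin s.N → (Fin m → Fin s.N) → Prop} (h : DT m H P) :
    DT m H fun s _ y c => ∃ a, P s a y c :=
  (Df.ex 0 h).congr fun _ _ _ => by simp [Fin.succ_ne_zero]

theorem DT.ex1 {P : ∀ s : Str, Fin s.N → Fin s.N → (Fin m → Fin s.N) → Prop} (h : DT m H P) :
    DT m H fun s x _ c => ∃ a, P s x a c :=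
  (Df.ex 1 h).congr fun _ _ _ => by simp [Fin.succ_succ_ne_one]

theorem DT.imp {P Q : ∀ s : Str, Fin s.N → Fin s.N → (Fin m → Fin s.N) → Prop} (h : DT m H P)
    (h' : DT m H Q) : DT m H fun s x y c => P s x y c → Q s x y c := Df.imp h h'

theorem dt2 (a : ℕ) : DT m H fun s x y _ => s.I a [x, y] := D2.rel _ 0 1

theorem DT.close {P : ∀ s : Str, Fin s.N → Fin s.N → (Fin m → Fin s.N) → Prop} (h : DT m H P) :
    D0 (m + 2) H fun s => ∀ x y c, P s x y c :=
  (Df.close h).congr fun s _ _ => ⟨fun h x y c => by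
    simpa using h (Fin.cons x (Fin.cons y c : Fin (m + 1) → Fin s.N)), fun h _ => h _ _ _⟩

theorem dt0 (a : ℕ) : DT m H fun s x _ c => s.I a (x :: ofFn c) :=
  df_list a (0 :: ofFn fun i : Fin m => i.succ.succ) fun _ _ => by simp [map_ofFn, comp_def]

theorem dt1 (a : ℕ) : DT m H fun s _ y c => s.I a (y :: ofFn c) :=
  df_list a (1 :: ofFn fun i : Fin m => i.succ.succ) fun _ _ => by simp [map_ofFn, comp_def]

theorem ins_comp {A B : Type} (v : A → B) (p : Fin (m + 1)) (y : A) (c : Fin m → A) :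
    v ∘ (p.insertNth y c : Fin (m + 1) → A) = p.insertNth (v y) fun i => v (c i) := by
  funext q
  rcases Fin.eq_self_or_eq_succAbove p q with rfl | ⟨i, rfl⟩ <;> simp

theorem d_simA (hm : 2 ≤ m) (hpos : ∀ s, H s → 0 < s.N) (hlt : D2 (m + 2) H fun _ x y => x < y)
    {Fc St : ∀ s : Str, Fin (m + 1) → Fin s.N → Fin s.N → Prop}
    {Dm : ∀ s : Str, Fin s.N → Fin s.N → Prop} (hF : ∀ j, D2 (m + 2) H fun s => Fc s j)
    (hD : D2 (m + 2) H Dm) (hS : ∀ j, D2 (m + 2) H fun s => St s j) :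
    D0 (m + 2) H fun s => SimA m (Fc s) (Dm s) (St s) fun t p => s.I (sy t p.1) := by
  have hK : 4 ≤ m + 2 := by omega
  refine Df.and ?_ (Df.and ?_ (Df.and ?_ (Df.and ?_ (Df.and ?_ ?_))))
  · refine (dt0 _).ex0.close.congr fun s hs => ⟨fun h => h ⟨0, hpos s hs⟩ ⟨0, hpos s hs⟩,
      fun h _ _ => h⟩
  · exact Df.allF fun j => ((dt0 _).imp ((dt1 _).imp (dt2 _))).close
  · have e : ∀ (s : Str) (v : Fin (m + 2) → Fin s.N), v ∘ Fin.succ =
        (Fin.cons (v 1) fun i : Fin m => v i.succ.succ : Fin (m + 1) → Fin s.N) :=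
      fun s v => funext fun i => by cases i using Fin.cases <;> simp
    have h1 : DT m H fun s t y c => ∀ j : Fin (m + 1), s.I (sy 1 j.1)
        (t :: ofFn ((Fin.cons y c : Fin (m + 1) → Fin s.N) ∘ j.succAbove)) ∧
        (s.I (sy 3 j.1) (ofFn (Fin.cons y c : Fin (m + 1) → Fin s.N)) →
          s.I (sy 4 j.1) [(Fin.cons y c : Fin (m + 1) → Fin s.N) j, t]) := by
      refine Df.allF fun j => Df.and (df_list _ (0 :: ofFn (Fin.succ ∘ j.succAbove)) ?_)
        (Df.imp (df_list _ (ofFn Fin.succ) ?_) (df_list _ [j.succ, 0] ?_))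
      · intro s v; rw [← e, map_cons, map_ofFn]; rfl
      · intro s v; rw [← e, map_ofFn]
      · intro s v; rw [← e]; rfl
    have h2 : DT m H fun s _ y c => StrictMono (Fin.cons y c : Fin (m + 1) → Fin s.N) :=
      df_sm hlt Fin.succ e
    refine (h2.imp h1.ex0).close.congr fun s hs => ⟨fun h b => ?_, fun h _ _ _ => h _⟩
    have := h (b 0) (b 0) (Fin.tail b)
    rwa [Fin.cons_self_tail] at this
  · have h1 : DT m H fun s w y c => ∃ p : Fin (m + 1),
        StrictMono (p.insertNth y c : Fin (m + 1) → Fin s.N) ∧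
        s.I (sy 3 p.1) (ofFn (p.insertNth y c : Fin (m + 1) → Fin s.N)) ∧ s.I (sy 9 p.1) [y, w] := by
      refine Df.exF fun p => Df.and (df_sm hlt (p.insertNth 1 fun i => i.succ.succ) ?_)
        (Df.and (df_list _ (ofFn (p.insertNth 1 (fun i => i.succ.succ) : Fin (m + 1) → Fin (m + 2))) ?_)
          (D2.rel _ 1 0))
      · intro s v; rw [ins_comp]
      · intro s v; rw [map_ofFn, ins_comp]
    have h2 : DT m H fun s _ _ c => StrictMono c :=
      df_sm hlt (fun i : Fin m => i.succ.succ) fun _ _ => rfl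
    exact (h2.imp ((dt0 _).imp h1.ex1)).close.congr fun s hs =>
      ⟨fun h w => h w w, fun h w _ => h w⟩
  · exact ((dt1 _).imp ((dt2 _).imp (dt0 _))).close
  · apply D4.to0 hK
    with_reducible repeat' first
      | exact sel0 | exact sel1 | exact sel2 | exact sel3 | apply D4.at2 (hF _) | apply D4.at2 hD
      | apply D4.at2 (hS _) | apply D4.rel1 | apply D4.rel2 | apply D4.rel3 | apply D4.eq
      | apply D4.ne | apply D4.not | apply D4.and | apply D4.or | apply D4.iff | apply D4.imp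
      | apply D4.ex0 | apply D4.ex1 | apply D4.ex2 | apply D4.ex3 | apply D4.all0 | apply D4.all1
      | apply D4.all2 | apply D4.all3 | (apply D4.allF; intro _) | (apply D4.exF; intro _)
      | apply D4.const

end Pool.Agent.MP_8c2300_lc.h28

end MrgPart3

-- ======== part 4: formerly Pool.Agent.MP_8c2300_lc.h28.SimB
section MrgPart4

/-! Exhaustive search: a large structure refutes a small labelling problem. -/

set_option autoImplicit false

namespace Pool.Agent.MP_8c2300_lc.h28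

open Function List

variable {m N : ℕ}

/-- axioms for codes of tuples of small elements -/
def AxB (m a L : ℕ) {N : ℕ} (J : ℕ → Fin (m + 2) → List (Fin N) → Prop) : Prop :=
  (∃ q, J 0 0 [q]) ∧ (∀ q : Fin N, J 0 0 [q] → q.1 < L) ∧
  (∀ i q, J 0 0 [q] → ∃ x : Fin N, x.1 ≤ a ∧ J 1 i [q, x] ∧ ∀ y, J 1 i [q, y] → y = x) ∧
  ∀ i q, ∀ x : Fin N, J 0 0 [q] → x.1 ≤ a → ∃ q', J 0 0 [q'] ∧ J 1 i [q', x] ∧
    ∀ i', i' ≠ i → ∀ y, J 1 i' [q, y] → J 1 i' [q', y]

def Eqc (J : ℕ → Fin (m + 2) → List (Fin N) → Prop) (i i' : Fin (m + 2)) (q q' : Fin N) : Prop :=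
  ∃ x, J 1 i [q, x] ∧ J 1 i' [q', x]

def Srt {r : ℕ} (J : ℕ → Fin (m + 2) → List (Fin N) → Prop) (g : Fin r → Fin (m + 2)) (q : Fin N) :
    Prop := ∀ j j', j < j' → ∀ x y, J 1 (g j) [q, x] → J 1 (g j') [q, y] → x < y

/-- the digits of `s` and `s'` code a solution -/
def Sol (m : ℕ) {N : ℕ} (Fc : Fin (m + 1) → Fin N → Fin N → Prop) (Dm : Fin N → Fin N → Prop)
    (St : Fin (m + 1) → Fin N → Fin N → Prop) (J : ℕ → Fin (m + 2) → List (Fin N) → Prop)
    (s s' : Fin N) : Prop :=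
  (∀ q, J 0 0 [q] → ∃ q2 : Fin N, J 0 0 [q2] ∧ s.1.testBit q2.1 = true ∧
    ∀ j : Fin (m + 1), Eqc J j.succ j.succ q q2) ∧
  (∀ q, J 0 0 [q] → ∃ q2 : Fin N, J 0 0 [q2] ∧ s'.1.testBit q2.1 = true ∧
    ∀ j : Fin m, Eqc J j.succ.succ j.succ.succ q q2) ∧
  (∀ q q2 : Fin N, J 0 0 [q] → J 0 0 [q2] → s.1.testBit q.1 = true → s.1.testBit q2.1 = true →
    (∀ j : Fin (m + 1), Eqc J j.succ j.succ q q2) → Eqc J 0 0 q q2) ∧
  (∀ p : Fin (m + 1), ∀ q q' : Fin N, J 0 0 [q] → J 0 0 [q'] → s.1.testBit q.1 = true →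
    s'.1.testBit q'.1 = true → Srt J Fin.succ q →
    (∀ i : Fin m, Eqc J (p.succAbove i).succ i.succ.succ q q') →
    ∃ σ ρ, J 1 0 [q, σ] ∧ J 1 0 [q', ρ] ∧ Fc p σ ρ) ∧
  ∀ q' d : Fin N, J 0 0 [q'] → s'.1.testBit q'.1 = true → Srt J (fun i : Fin m => i.succ.succ) q' →
    (∃ ρ, J 1 0 [q', ρ] ∧ Dm ρ d) → ∃ q : Fin N, ∃ p : Fin (m + 1), J 0 0 [q] ∧
      s.1.testBit q.1 = true ∧ Srt J Fin.succ q ∧
      (∀ i : Fin m, Eqc J (p.succAbove i).succ i.succ.succ q q') ∧ ∃ σ, J 1 0 [q, σ] ∧ St p d σ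

def SimB (m a L : ℕ) {N : ℕ} (Fc : Fin (m + 1) → Fin N → Fin N → Prop) (Dm : Fin N → Fin N → Prop)
    (St : Fin (m + 1) → Fin N → Fin N → Prop) (J : ℕ → Fin (m + 2) → List (Fin N) → Prop) : Prop :=
  AxB m a L J ∧ ∀ s s', ¬Sol m Fc Dm St J s s'

theorem axB_dec {a L : ℕ} (ha : a + 1 ≤ N) {J : ℕ → Fin (m + 2) → List (Fin N) → Prop}
    (h : AxB m a L J) : ∃ dec : Fin N → Fin (m + 2) → Fin (a + 1),
      (∀ q, J 0 0 [q] → ∀ i x, J 1 i [q, x] ↔ x = (dec q i).castLE ha) ∧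
      ∀ t, ∃ q, J 0 0 [q] ∧ dec q = t := by
  classical
  obtain ⟨⟨q0, h0⟩, -, h3, h4⟩ := h
  have : ∀ q i, ∃ z : Fin (a + 1), J 0 0 [q] → ∀ x, J 1 i [q, x] ↔ x = z.castLE ha := by
    intro q i
    by_cases hq : J 0 0 [q]
    · obtain ⟨x, h1, h2, h3⟩ := h3 i q hq
      exact ⟨⟨x.1, by omega⟩, fun _ y => ⟨h3 y, fun e => by rw [e]; exact h2⟩⟩
    · exact ⟨0, fun h => absurd h hq⟩
  choose dec hdec using this
  refine ⟨dec, fun q hq i => hdec q i hq, fun t => ?_⟩
  have : ∀ T : Finset (Fin (m + 2)), ∃ q, J 0 0 [q] ∧ ∀ i ∈ T, dec q i = t i := by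
    intro T
    induction T using Finset.induction_on with
    | empty => exact ⟨q0, h0, by simp⟩
    | insert i T hi ih =>
      obtain ⟨q, hq, hT⟩ := ih
      obtain ⟨q', hq', h5, h6⟩ := h4 i q ((t i).castLE ha) hq (Nat.le_of_lt_succ (t i).2)
      refine ⟨q', hq', fun i' hi' => ?_⟩
      rcases Finset.mem_insert.1 hi' with rfl | hi2
      · exact (Fin.castLE_injective ha ((hdec q' _ hq' _).1 h5)).symm
      · have := h6 i' (by rintro rfl; exact hi hi2) _ ((hdec q i' hq _).2 rfl)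
        rw [← hT i' hi2]
        exact (Fin.castLE_injective ha ((hdec q' _ hq' _).1 this)).symm
  obtain ⟨q, hq, hT⟩ := this Finset.univ
  exact ⟨q, hq, funext fun i => hT i (Finset.mem_univ _)⟩

theorem sol_iff {a L : ℕ} (ha : a + 1 ≤ N) (hm : m ≤ a) (hL : 2 ^ L ≤ N)
    {Fc : Fin (m + 1) → Fin N → Fin N → Prop} {Dm : Fin N → Fin N → Prop}
    {St : Fin (m + 1) → Fin N → Fin N → Prop} (hs : ∀ j σ ρ, Fc j σ ρ → σ.1 ≤ a ∧ ρ.1 ≤ a)
    {J : ℕ → Fin (m + 2) → List (Fin N) → Prop} (h : AxB m a L J) :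
    (∃ s s', Sol m Fc Dm St J s s') ↔ ModG m Fc Dm St (a + 1) := by
  classical
  obtain ⟨dec, hP, hsur⟩ := axB_dec ha h
  have hE : ∀ q q', J 0 0 [q] → J 0 0 [q'] → ∀ i i', Eqc J i i' q q' ↔ dec q i = dec q' i' := by
    intro q q' hq hq' i i'
    simp [Eqc, hP q hq, hP q' hq']
  have hS : ∀ q, J 0 0 [q] → ∀ (r : ℕ) (g : Fin r → Fin (m + 2)),
      Srt J g q ↔ StrictMono (dec q ∘ g) := by
    intro q hq r g
    simp only [Srt, hP q hq]
    exact ⟨fun h j j' hj => h j j' hj _ _ rfl rfl, fun h j j' hj x y hx hy => by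
      rw [hx, hy]; exact h hj⟩
  constructor
  · rintro ⟨s, s', S1, S2, S3, S4, S5⟩
    have h1 : ∀ b : Fin (m + 1) → Fin (a + 1), ∃ q : Fin N, J 0 0 [q] ∧ s.1.testBit q.1 = true ∧
        dec q ∘ Fin.succ = b := by
      intro b
      obtain ⟨q, hq, e⟩ := hsur (Fin.cons 0 b)
      obtain ⟨q2, h1, h2, h3⟩ := S1 q hq
      refine ⟨q2, h1, h2, funext fun j => ?_⟩
      rw [comp_apply, ← (hE q q2 hq h1 _ _).1 (h3 j), e]; rfl
    have h2 : ∀ c : Fin m → Fin (a + 1), ∃ q : Fin N, J 0 0 [q] ∧ s'.1.testBit q.1 = true ∧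
        (dec q ∘ fun i : Fin m => i.succ.succ) = c := by
      intro c
      obtain ⟨q, hq, e⟩ := hsur (Fin.cons 0 (Fin.cons 0 c : Fin (m + 1) → Fin (a + 1)))
      obtain ⟨q2, h1, h2, h3⟩ := S2 q hq
      refine ⟨q2, h1, h2, funext fun j => ?_⟩
      rw [comp_apply, ← (hE q q2 hq h1 _ _).1 (h3 j), e]; rfl
    choose qb b1 b2 b3 using h1
    choose qc c1 c2 c3 using h2
    refine ⟨fun b => (dec (qb b) 0).castLE ha, fun c => (dec (qc c) 0).castLE ha,
      fun b hb j => ?_, fun c hc d hd => ?_⟩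
    · obtain ⟨σ, ρ, h1, h2, h3⟩ := S4 j _ _ (b1 b) (c1 (b ∘ j.succAbove)) (b2 _) (c2 _)
        ((hS _ (b1 b) _ _).2 (by rwa [b3])) fun i => (hE _ _ (b1 _) (c1 _) _ _).2
          ((congrFun (b3 b) _).trans (congrFun (c3 (b ∘ j.succAbove)) i).symm)
      rwa [(hP _ (b1 _) _ _).1 h1, (hP _ (c1 _) _ _).1 h2] at h3
    · obtain ⟨q, p, h1, h2, h3, h4, σ, h5, h6⟩ := S5 _ d (c1 c) (c2 c)
        ((hS _ (c1 c) _ _).2 (by rwa [c3])) ⟨_, (hP _ (c1 c) _ _).2 rfl, hd⟩
      refine ⟨dec q ∘ Fin.succ, p, (hS _ h1 _ _).1 h3, funext fun i =>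
        ((hE _ _ h1 (c1 c) _ _).1 (h4 i)).trans (congrFun (c3 c) i), ?_⟩
      have := (hE _ _ h1 (b1 _) _ _).1 (S3 q (qb (dec q ∘ Fin.succ)) h1 (b1 _) h2 (b2 _)
        fun j => (hE _ _ h1 (b1 _) _ _).2 (congrFun (b3 (dec q ∘ Fin.succ)) j).symm)
      rw [(hP _ h1 _ _).1 h5, this] at h6
      exact h6
  · rintro ⟨S, R, hF, hD⟩
    have bits : ∀ Q : Fin N → Prop, ∃ s : Fin N, ∀ q : Fin N, J 0 0 [q] →
        (s.1.testBit q.1 = true ↔ Q q) := by
      intro Q
      obtain ⟨j, hj, h1⟩ := exists_bits ((Finset.univ.filter fun q => J 0 0 [q] ∧ Q q).image Fin.val)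
        L (by
          intro e he
          obtain ⟨q, hq, rfl⟩ := Finset.mem_image.1 he
          exact h.2.1 q (Finset.mem_filter.1 hq).2.1)
      exact ⟨⟨j, by omega⟩, fun q hq => by simp [h1, Fin.val_inj, hq]⟩
    let sm : Fin N → Fin (a + 1) := fun x => if h : x.1 ≤ a then ⟨x.1, by omega⟩ else 0
    have hsm : ∀ x : Fin N, x.1 ≤ a → (sm x).castLE ha = x := fun x hx => by simp [sm, hx]
    have hSs : ∀ b, StrictMono b → (sm (S b)).castLE ha = S b := fun b hb =>
      hsm _ (hs _ _ _ (hF b hb 0)).1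
    have hRs : ∀ c, StrictMono c → (sm (R c)).castLE ha = R c := fun c hc => by
      obtain ⟨b, p, hb, rfl⟩ := ext_any (by omega) hc
      exact hsm _ (hs _ _ _ (hF b hb p)).2
    obtain ⟨s, e1⟩ := bits fun q => dec q 0 = sm (S (dec q ∘ Fin.succ))
    obtain ⟨s', e2⟩ := bits fun q => dec q 0 = sm (R (dec q ∘ fun i : Fin m => i.succ.succ))
    refine ⟨s, s', fun q hq => ?_, fun q hq => ?_, fun q q2 hq hq2 h1 h2 h3 => ?_,
      fun p q q' hq hq' h1 h2 h3 h4 => ?_, fun q' d hq' h1 h2 ⟨ρ, h3, h4⟩ => ?_⟩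
    · obtain ⟨q2, h1, h2⟩ := hsur (Fin.cons (sm (S (dec q ∘ Fin.succ))) (dec q ∘ Fin.succ))
      exact ⟨q2, h1, (e1 _ h1).2 (by rw [h2]; rfl), fun j => (hE _ _ hq h1 _ _).2 (by rw [h2]; rfl)⟩
    · obtain ⟨q2, h1, h2⟩ := hsur (Fin.cons (sm (R (dec q ∘ fun i : Fin m => i.succ.succ)))
        (dec q ∘ Fin.succ))
      exact ⟨q2, h1, (e2 _ h1).2 (by rw [h2]; rfl), fun j => (hE _ _ hq h1 _ _).2 (by rw [h2]; rfl)⟩
    · rw [hE _ _ hq hq2, (e1 _ hq).1 h1, (e1 _ hq2).1 h2,
        show dec q ∘ Fin.succ = dec q2 ∘ Fin.succ from funext fun j => (hE _ _ hq hq2 _ _).1 (h3 j)]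
    · have hb := (hS _ hq _ _).1 h3
      have e : (dec q' ∘ fun i : Fin m => i.succ.succ) = (dec q ∘ Fin.succ) ∘ p.succAbove :=
        funext fun i => ((hE _ _ hq hq' _ _).1 (h4 i)).symm
      refine ⟨_, _, (hP _ hq _ _).2 rfl, (hP _ hq' _ _).2 rfl, ?_⟩
      rw [(e1 _ hq).1 h1, (e2 _ hq').1 h2, e, hSs _ hb,
        hRs _ (hb.comp (Fin.strictMono_succAbove p))]
      exact hF _ hb p
    · have hc := (hS _ hq' _ _).1 h2
      rw [(hP _ hq' _ _).1 h3, (e2 _ hq').1 h1, hRs _ hc] at h4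
      obtain ⟨b, p, hb, e, hst⟩ := hD _ hc d h4
      obtain ⟨q, h5, h6⟩ := hsur (Fin.cons (sm (S b)) b)
      refine ⟨q, p, h5, (e1 _ h5).2 (by rw [h6]; rfl), (hS _ h5 _ _).2 (by rw [h6]; exact hb),
        fun i => (hE _ _ h5 hq' _ _).2 (by rw [h6]; exact congrFun e i), _, (hP _ h5 _ _).2 rfl, ?_⟩
      rw [h6, Fin.cons_zero, hSs _ hb]
      exact hst

theorem exists_axB {a L : ℕ} (ha : a + 1 ≤ N) (hL : L ≤ N) (hc : (a + 1) ^ (m + 2) ≤ L) :
    ∃ J : ℕ → Fin (m + 2) → List (Fin N) → Prop, AxB m a L J := by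
  obtain ⟨f, hf⟩ := exists_dec (N := L) (Fin (m + 2) → Fin (a + 1)) (by simpa using hc)
  let dec : Fin N → Fin (m + 2) → Fin (a + 1) := fun q => if h : q.1 < L then f ⟨q.1, h⟩ else 0
  have hd : ∀ t, ∃ q : Fin N, q.1 < L ∧ dec q = t := fun t => by
    obtain ⟨q, rfl⟩ := hf t
    exact ⟨q.castLE hL, q.2, by simp [dec]⟩
  refine ⟨fun t i => match t with
    | 0 => en1 fun q => q.1 < L
    | _ + 1 => en2 fun q x => x = (dec q i).castLE ha, ?_⟩
  simp only [AxB, en1_iff, en2_iff]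
  refine ⟨(hd 0).imp fun _ h => h.1, fun _ h => h, fun i q _ =>
    ⟨_, Nat.le_of_lt_succ (dec q i).2, rfl, fun _ h => h⟩, fun i q x _ hx => ?_⟩
  obtain ⟨q', h1, h2⟩ := hd (update (dec q) i ⟨x.1, by omega⟩)
  refine ⟨q', h1, by rw [h2, update_self]; rfl, fun i' hi y hy => ?_⟩
  rw [h2, update_of_ne hi, hy]

theorem simB_iff {a L : ℕ} (ha : a + 1 ≤ N) (hm : m ≤ a) (hL : 2 ^ L ≤ N)
    (hc : (a + 1) ^ (m + 2) ≤ L)
    {Fc : Fin (m + 1) → Fin N → Fin N → Prop} {Dm : Fin N → Fin N → Prop}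
    {St : Fin (m + 1) → Fin N → Fin N → Prop} (hs : ∀ j σ ρ, Fc j σ ρ → σ.1 ≤ a ∧ ρ.1 ≤ a) :
    (∃ J, SimB m a L Fc Dm St J) ↔ ¬ModG m Fc Dm St (a + 1) := by
  constructor
  · rintro ⟨J, h1, h2⟩ h
    obtain ⟨s, s', h⟩ := (sol_iff ha hm hL hs h1).2 h
    exact h2 s s' h
  · intro h
    obtain ⟨J, hJ⟩ := exists_axB ha (Nat.lt_two_pow_self.le.trans hL) hc
    exact ⟨J, hJ, fun s s' h' => h ((sol_iff ha hm hL hs hJ).1 ⟨s, s', h'⟩)⟩

theorem d_simB {K : ℕ} {H : Str → Prop} (hK : 4 ≤ K) (hlt : D2 K H fun _ x y => x < y)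
    (hbit : D2 K H fun _ x y => x.1.testBit y.1 = true) {a L : Str → ℕ}
    (ha : D1 K H fun s x => x.1 ≤ a s) (hL : D1 K H fun s x => x.1 < L s)
    {Fc St : ∀ s : Str, Fin (m + 1) → Fin s.N → Fin s.N → Prop}
    {Dm : ∀ s : Str, Fin s.N → Fin s.N → Prop} (hF : ∀ j, D2 K H fun s => Fc s j)
    (hD : D2 K H Dm) (hS : ∀ j, D2 K H fun s => St s j) :
    D0 K H fun s => SimB m (a s) (L s) (Fc s) (Dm s) (St s) fun t p => s.I (sy t p.1) := by
  apply D4.to0 hK
  unfold SimB AxB Sol Eqc Srt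
  with_reducible repeat' first
    | exact sel0 | exact sel1 | exact sel2 | exact sel3 | apply D4.at2 (hF _) | apply D4.at2 hD
    | apply D4.at2 (hS _) | apply D4.at2 hlt | apply D4.at2 hbit | apply D4.at1 ha
    | apply D4.at1 hL | apply D4.rel1 | apply D4.rel2 | apply D4.rel3 | apply D4.eq | apply D4.ne
    | apply D4.not | apply D4.and | apply D4.or | apply D4.iff | apply D4.imp | apply D4.ex0
    | apply D4.ex1 | apply D4.ex2 | apply D4.ex3 | apply D4.all0 | apply D4.all1 | apply D4.all2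
    | apply D4.all3 | (apply D4.allF; intro _) | (apply D4.exF; intro _) | apply D4.const

end Pool.Agent.MP_8c2300_lc.h28

end MrgPart4

-- ======== part 5: formerly Pool.Agent.MP_8c2300_lc.h28.Main
section MrgPart5

/-! Delayed diagonalization. -/

set_option autoImplicit false

namespace Pool.Agent.MP_8c2300_lc.h28

open Function

variable {m n : ℕ}

/-- the labelling problem given by a table of natural numbers -/
def ModT (m : ℕ) (T : ℕ → ℕ → ℕ → Prop) (n : ℕ) : Prop :=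
  ModG m (fun p x y => T (2 * p.1 + 1) x y) (T 0) (fun p d σ => T (2 * p.1 + 2) σ d) n

theorem modT_congr {T T' : ℕ → ℕ → ℕ → Prop} (h : ∀ r ≤ 2 * (m + 1), ∀ x y, T r x y ↔ T' r x y) :
    ModT m T n ↔ ModT m T' n := by
  have e : ∀ r ≤ 2 * (m + 1), T r = T' r := fun r hr => funext fun x => funext fun y =>
    propext (h r hr x y)
  have e1 : ∀ p : Fin (m + 1), T (2 * p.1 + 1) = T' (2 * p.1 + 1) := fun p => e _ (by omega)
  have e2 : ∀ p : Fin (m + 1), T (2 * p.1 + 2) = T' (2 * p.1 + 2) := fun p => e _ (by omega)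
  simp only [ModT, e1, e2, e 0 (by omega)]

theorem modT_fin (hn : m + 1 ≤ n) {T : ℕ → ℕ → ℕ → Prop} {M : ℕ} (hM : 0 < M)
    (h : ∀ r ≤ 2 * (m + 1), ∀ x y, T r x y → x < M ∧ y < M) :
    ModG m (fun p (x y : Fin M) => T (2 * p.1 + 1) x.1 y.1) (fun (x y : Fin M) => T 0 x.1 y.1)
      (fun p (d σ : Fin M) => T (2 * p.1 + 2) σ.1 d.1) n ↔ ModT m T n := by
  constructor
  · exact modG_map hn Fin.val Fin.val (fun _ _ _ h => h) fun j σ ρ d _ hd =>
      ⟨⟨d, (h 0 (by omega) _ _ hd).2⟩, hd, fun _ _ h => h⟩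
  · let f : ℕ → Fin M := fun x => if h : x < M then ⟨x, h⟩ else ⟨0, hM⟩
    have hf : ∀ x < M, (f x).1 = x := fun x hx => by simp [f, hx]
    refine modG_map hn f f (fun j σ ρ h1 => ?_) fun j σ ρ d h1 hd => ⟨d.1, ?_, fun p σ h2 => ?_⟩
    · have := h _ (by omega) _ _ h1
      rwa [hf _ this.1, hf _ this.2]
    · rwa [hf _ (h _ (by omega) _ _ h1).2] at hd
    · rwa [hf _ (h _ (by omega) _ _ h2).1]

theorem exists_table (hn : ℕ) {α β γ : Type} [Finite α] [Finite β] [Finite γ] [Nonempty α]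
    [Nonempty β] (Fc : Fin (m + 1) → α → β → Prop) (Dm : β → γ → Prop)
    (St : Fin (m + 1) → γ → α → Prop) : ∃ (T : ℕ → ℕ → ℕ → Prop) (B : ℕ),
      (∀ r x y, T r x y → r ≤ 2 * (m + 1) ∧ 2 * (m + 1) < x ∧ x < y ∧ y < B) ∧ hn < B ∧
      ∀ n, m + 1 ≤ n → (ModT m T n ↔ ModG m Fc Dm St n) := by
  obtain ⟨a, ⟨ea⟩⟩ := Finite.exists_equiv_fin α
  obtain ⟨b, ⟨eb⟩⟩ := Finite.exists_equiv_fin β
  obtain ⟨c, ⟨ec⟩⟩ := Finite.exists_equiv_fin γ
  let ia : α → ℕ := fun x => 2 * (m + 1) + 1 + (ea x).1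
  let ib : β → ℕ := fun x => 2 * (m + 1) + 1 + a + (eb x).1
  let ic : γ → ℕ := fun x => 2 * (m + 1) + 1 + a + b + (ec x).1
  have ha : Injective ia := fun x y h => ea.injective (Fin.ext (Nat.add_left_cancel h))
  have hb : Injective ib := fun x y h => eb.injective (Fin.ext (Nat.add_left_cancel h))
  have hc : Injective ic := fun x y h => ec.injective (Fin.ext (Nat.add_left_cancel h))
  refine ⟨fun r x y => (∃ p σ ρ, r = 2 * p.1 + 1 ∧ x = ia σ ∧ y = ib ρ ∧ Fc p σ ρ) ∨
    (∃ ρ d, r = 0 ∧ x = ib ρ ∧ y = ic d ∧ Dm ρ d) ∨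
    ∃ p d σ, r = 2 * p.1 + 2 ∧ x = ia σ ∧ y = ic d ∧ St p d σ,
    2 * (m + 1) + 1 + a + b + c + hn, ?_, by omega, fun n hn => ⟨?_, ?_⟩⟩
  · rintro r x y (⟨p, σ, ρ, rfl, rfl, rfl, -⟩ | ⟨ρ, d, rfl, rfl, rfl, -⟩ | ⟨p, d, σ, rfl, rfl, rfl, -⟩)
    · have := (ea σ).2; have := (eb ρ).2; simp only [ia, ib]; omega
    · have := (ec d).2; have := (eb ρ).2; simp only [ic, ib]; omega
    · have := (ea σ).2; have := (ec d).2; simp only [ia, ic]; omega
  · refine modG_map hn (invFun ia) (invFun ib) ?_ ?_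
    · rintro j x y (⟨p, σ, ρ, h, rfl, rfl, h'⟩ | ⟨ρ, d, h, -⟩ | ⟨p, d, σ, h, -⟩)
      · rwa [leftInverse_invFun ha, leftInverse_invFun hb, show j = p from Fin.ext (by omega)]
      · omega
      · omega
    · rintro j x y d' (⟨p, σ, ρ, h, rfl, rfl, h'⟩ | ⟨ρ, d, h, -⟩ | ⟨p, d, σ, h, -⟩) hd
      · rw [leftInverse_invFun hb] at hd
        refine ⟨ic d', Or.inr (Or.inl ⟨ρ, d', rfl, rfl, rfl, hd⟩), ?_⟩
        rintro q z (⟨p, σ, ρ, h, -⟩ | ⟨ρ, d, h, -⟩ | ⟨p, d, σ, h, rfl, e, h'⟩)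
        · omega
        · omega
        · rwa [leftInverse_invFun ha, hc e, show q = p from Fin.ext (by omega)]
      · omega
      · omega
  · refine modG_map hn ia ib (fun j σ ρ h => Or.inl ⟨j, σ, ρ, rfl, rfl, rfl, h⟩) ?_
    rintro j σ ρ d' - (⟨p, σ, ρ, h, -⟩ | ⟨ρ', d, -, e, rfl, h⟩ | ⟨p, d, σ, h, -⟩)
    · omega
    · exact ⟨d, by rwa [hb e], fun p σ h => Or.inr (Or.inr ⟨p, d, σ, rfl, rfl, rfl, h⟩)⟩
    · omega

/-- tables of the current stage, on the elements of the structure -/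
def tF (m N : ℕ) (p : Fin (m + 1)) (x y : Fin N) : Prop :=
  tab (2 * (m + 1)) (cur N) (2 * p.1 + 1) x.1 y.1

def tD (m N : ℕ) (x y : Fin N) : Prop := tab (2 * (m + 1)) (cur N) 0 x.1 y.1

def tS (m N : ℕ) (p : Fin (m + 1)) (d σ : Fin N) : Prop :=
  tab (2 * (m + 1)) (cur N) (2 * p.1 + 2) σ.1 d.1

/-- the separating spectrum -/
def Wit (m : ℕ) : Set ℕ := {N | ∃ I, Std ⟨N, I⟩ ∧
  ((¬N = anc (cur N + 1) + 1 → SimA m (tF m N) (tD m N) (tS m N) fun t p => I (sy t p.1)) ∧
  (N = anc (cur N + 1) + 1 → SimB m (anc (cur N)) (2 ^ anc (cur N)) (tF m N) (tD m N) (tS m N)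
    fun t p => I (sy t p.1)))}

theorem wit_mem (hm : 2 ≤ m) : Wit m ∈ Spec (m + 2) := by
  have hK : 4 ≤ m + 2 := by omega
  have hF : ∀ p, D2 (m + 2) Std fun s => tF m s.N p := fun p => s_tab hK _ _
  have hD : D2 (m + 2) Std fun s => tD m s.N := s_tab hK _ _
  have hS : ∀ p, D2 (m + 2) Std fun s => tS m s.N p := fun p i j => s_tab hK _ _ j i
  have h1 := s_last hK
  have h2 := d_simA hm (fun s hs => lt_of_lt_of_le two_pos hs.2) s_lt hF hD hS
  have h3 := d_simB hK s_lt s_bit (s_sm hK) (s_cd hK) hF hD hS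
  unfold D0 at h1 h2 h3
  have h4 := (h1.not.imp h2).and (h1.imp h3)
  exact spec_of_std hK (Q := fun s => (¬s.N = anc (cur s.N + 1) + 1 →
    SimA m (tF m s.N) (tD m s.N) (tS m s.N) fun t p => s.I (sy t p.1)) ∧
    (s.N = anc (cur s.N + 1) + 1 → SimB m (anc (cur s.N)) (2 ^ anc (cur s.N)) (tF m s.N) (tD m s.N)
      (tS m s.N) fun t p => s.I (sy t p.1))) h4

theorem wit_not_mem : Wit m ∉ Spec (m + 1) := by
  rintro ⟨φ, hφ⟩
  have : Finite {ψ // ψ ∈ φ.subs} := (List.finite_toSet φ.subs).to_subtype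
  obtain ⟨T, B, hT, hB, hM⟩ := exists_table (m + 1) (sFc φ) (sDm φ) (sSt φ)
  obtain ⟨N0, hN0⟩ := card_small m B
  obtain ⟨L0, hL0⟩ := poly_le_exp 1 (m + 2)
  obtain ⟨j, hj, hc⟩ := exists_code (2 * (m + 1)) B (B + N0 + L0) T hT
  have ha := le_anc j
  have hb : ∀ M, B ≤ M → ∀ r ≤ 2 * (m + 1), ∀ x y, tab (2 * (m + 1)) j r x y → x < M ∧ y < M := by
    intro M hM r hr x y h
    have := hT _ _ _ ((hc r hr x y).1 h)
    omega
  have hW : ∀ n, m + 1 ≤ n → (ModT m (tab (2 * (m + 1)) j) n ↔ n + 1 ∈ Wit m) := fun n hn => by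
    rw [modT_congr hc, hM n hn, mod_iff φ hn, hφ]
  have step : ∀ N, anc j + 1 < N → N < anc (j + 1) + 1 → (N ∈ Wit m ↔ N + 1 ∈ Wit m) := by
    intro N h1 h2
    have e := cur_eq h1 h2.le
    have hl : ¬N = anc (cur N + 1) + 1 := by rw [e]; omega
    rw [← hW N (by omega)]
    constructor
    · rintro ⟨I, -, h, -⟩
      have := simA_sound (h hl)
      unfold tF tD tS at this
      rw [e] at this
      exact (modT_fin (by omega) (by omega) (hb N (by omega))).1 this
    · intro h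
      obtain ⟨L, h3, h4⟩ := hN0 N (by omega)
      have : Nonempty (Fin B) := ⟨⟨0, by omega⟩⟩
      obtain ⟨J, hJ⟩ := simA_complete (Fc := tF m N) (Dm := tD m N) (St := tS m N)
        (Fin.castLE (show B ≤ N by omega)) (fun ρ d hd => by
          unfold tD at hd
          rw [e] at hd
          exact ⟨⟨d.1, (hb B le_rfl 0 (by omega) _ _ hd).2⟩, rfl⟩) h3 h4 (by
          unfold tF tD tS
          rw [e]
          exact (modT_fin (by omega) (by omega) (hb B le_rfl)).2 h)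
      obtain ⟨I, hI, hIJ⟩ := realize (by omega) J
      exact ⟨I, hI, fun _ => by simpa only [hIJ] using hJ, fun h => absurd h hl⟩
  have hlt : anc j < anc (j + 1) := anc_mono (Nat.lt_succ_self j)
  have last : anc (j + 1) + 1 ∈ Wit m ↔ anc j + 1 + 1 ∉ Wit m := by
    have e := cur_eq (N := anc (j + 1) + 1) (j := j) (by omega) le_rfl
    have key := simB_iff (m := m) (N := anc (j + 1) + 1) (a := anc j) (L := 2 ^ anc j) (by omega)
      (by omega) (Nat.le_succ _) (by simpa using hL0 (anc j) (by omega))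
      (Fc := tF m _) (Dm := tD m _) (St := tS m _) (fun p σ ρ h => by
        unfold tF at h
        rw [e] at h
        have := hb B le_rfl _ (by omega) _ _ h
        omega)
    have e2 : ModG m (tF m (anc (j + 1) + 1)) (tD m _) (tS m _) (anc j + 1) ↔
        anc j + 1 + 1 ∈ Wit m := by
      rw [← hW _ (by omega)]
      unfold tF tD tS
      rw [e]
      exact modT_fin (by omega) (by omega) (hb _ (by omega))
    rw [← e2, ← key]
    constructor
    · rintro ⟨I, -, -, h⟩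
      have := h (by rw [e])
      rw [e] at this
      exact ⟨_, this⟩
    · rintro ⟨J, hJ⟩
      obtain ⟨I, hI, hIJ⟩ := realize (by omega) J
      exact ⟨I, hI, fun h => absurd (by rw [e]) h, fun _ => by simpa only [hIJ, e] using hJ⟩
  have chain : ∀ i, anc j + 2 + i ≤ anc (j + 1) + 1 →
      (anc j + 2 ∈ Wit m ↔ anc j + 2 + i ∈ Wit m) := by
    intro i
    induction i with
    | zero => exact fun _ => Iff.rfl
    | succ i ih => exact fun h => (ih (by omega)).trans (step _ (by omega) (by omega))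
  have := chain (anc (j + 1) - anc j - 1) (by omega)
  rw [show anc j + 2 + (anc (j + 1) - anc j - 1) = anc (j + 1) + 1 by omega, last] at this
  exact iff_not_self this

theorem hierarchy (k : ℕ) : Spec k ⊂ Spec (k + 1) := by
  rcases k with _ | _ | _ | k
  · exact spec_zero
  · exact spec_one
  · exact spec_two
  · exact ⟨spec_mono _, fun h => wit_not_mem (h (wit_mem (m := k + 2) (by omega)))⟩

end Pool.Agent.MP_8c2300_lc.h28

end MrgPart5

-- marker of a merged file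
example : 731051 + 648119 = 731051 + 648119 := rfl
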